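import Pool.Agent.H12.UT.Targets2

/-!
MP_8b378c_ag, universal torsors: row EXV (adding variables).
-/

namespace Pool.Agent.H12.UT

open Polynomial

theorem pf_EXV : T_EXV := by
  intro K F _ _ _ n m x S hx hgen
  have hvar : AlgebraicIndependent F (fun i : Fin m =>
      algebraMap (MvPolynomial (Fin m) F) (FractionRing (MvPolynomial (Fin m) F))
        (MvPolynomial.X i)) := by
    have h := MvPolynomial.algebraicIndependent_X (Fin m) F
    exact h.map' (f := IsScalarTower.toAlgHom F (MvPolynomial (Fin m) F)
      (FractionRing (MvPolynomial (Fin m) F)))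
      (IsFractionRing.injective (MvPolynomial (Fin m) F) (FractionRing (MvPolynomial (Fin m) F)))
  refine ⟨fun i => algebraMap (MvPolynomial (Fin m) F) _ (MvPolynomial.X i), ?_, ?_⟩
  · have h := hx.sumElim_comp hvar
    have h2 := h.comp Sum.swap (Equiv.sumComm _ _).injective
    have h3 : (Sum.elim (fun i : Fin m =>
        algebraMap (MvPolynomial (Fin m) F) (FractionRing (MvPolynomial (Fin m) F))
        (MvPolynomial.X i)) (algebraMap F (FractionRing (MvPolynomial (Fin m) F)) ∘ x)) ∘
        Sum.swap = Sum.elim
        (fun j => algebraMap F (FractionRing (MvPolynomial (Fin m) F)) (x j))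
        (fun i : Fin m =>
        algebraMap (MvPolynomial (Fin m) F) (FractionRing (MvPolynomial (Fin m) F))
        (MvPolynomial.X i)) := by
      funext k
      rcases k with k | k <;> rfl
    rw [h3] at h2
    exact h2
  · set Ω := FractionRing (MvPolynomial (Fin m) F) with hΩ
    set M := IntermediateField.adjoin K (Set.range (Sum.elim
      (fun j => algebraMap F Ω (x j))
      (fun i : Fin m => algebraMap (MvPolynomial (Fin m) F) Ω (MvPolynomial.X i))) ∪
      (algebraMap F Ω) '' S) with hM
    have hF : ∀ f : F, algebraMap F Ω f ∈ M := by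
      have h1 : IntermediateField.adjoin K (Set.range x ∪ S) ≤
          M.comap (IsScalarTower.toAlgHom K F Ω) := by
        rw [IntermediateField.adjoin_le_iff]
        rintro w (⟨j, rfl⟩ | hw)
        · exact IntermediateField.subset_adjoin _ _ (Or.inl ⟨Sum.inl j, rfl⟩)
        · exact IntermediateField.subset_adjoin _ _ (Or.inr ⟨w, hw, rfl⟩)
      intro f
      have h2 : f ∈ IntermediateField.adjoin K (Set.range x ∪ S) := by
        rw [hgen]; exact IntermediateField.mem_top
      exact h1 h2
    have hX : ∀ i : Fin m, algebraMap (MvPolynomial (Fin m) F) Ω (MvPolynomial.X i) ∈ M :=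
      fun i => IntermediateField.subset_adjoin _ _ (Or.inl ⟨Sum.inr i, rfl⟩)
    have hP : ∀ p : MvPolynomial (Fin m) F, algebraMap (MvPolynomial (Fin m) F) Ω p ∈ M := by
      intro p
      induction p using MvPolynomial.induction_on with
      | C a => exact hF a
      | add p q hp hq => rw [map_add]; exact M.add_mem hp hq
      | mul_X p i hp => rw [map_mul]; exact M.mul_mem hp (hX i)
    rw [eq_top_iff]
    intro w _
    obtain ⟨p, q, hq, rfl⟩ := IsFractionRing.div_surjective (A := MvPolynomial (Fin m) F) w
    exact M.div_mem (hP p) (hP q)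

end Pool.Agent.H12.UT
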