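import Pool.Agent.H12.UT.Asm

/-!
MP_8b378c_ag, universal torsors: a variable more or less does not change stable rationality.
-/

namespace Pool.Agent.H12.UT

open Polynomial

/-- A field generated by a finite algebraically independent family is a field of rational
functions. -/
theorem equiv_of_gen {F Λ ι : Type} [Field F] [Field Λ] [Algebra F Λ] (x : ι → Λ)
    (hx : AlgebraicIndependent F x) (hgen : IntermediateField.adjoin F (Set.range x) = ⊤) :
    Nonempty (Λ ≃ₐ[F] FractionRing (MvPolynomial ι F)) := by
  have e1 := hx.aevalEquivField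
  have e2 : (IntermediateField.adjoin F (Set.range x)) ≃ₐ[F] Λ :=
    (IntermediateField.equivOfEq hgen).trans IntermediateField.topEquiv
  exact ⟨(e1.trans e2).symm⟩

/-- Change of the index type of the variables. -/
theorem equiv_index {K F ι ι' : Type} [Field K] [Field F] [Algebra K F] (e : ι ≃ ι') :
    Nonempty (FractionRing (MvPolynomial ι F) ≃ₐ[K] FractionRing (MvPolynomial ι' F)) :=
  ⟨IsFractionRing.fieldEquivOfAlgEquiv K (FractionRing (MvPolynomial ι F))
    (FractionRing (MvPolynomial ι' F)) ((MvPolynomial.renameEquiv F e).restrictScalars K)⟩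

/-- If `Ω` is generated over `F` by a transcendental element and `Ω` is stably rational over `K`,
then `F` is stably rational over `K`. -/
theorem sr_of_adjoin (hEXV : T_EXV) {K F Ω : Type} [Field K] [Field F] [Field Ω] [Algebra K F]
    [Algebra F Ω] [Algebra K Ω] [IsScalarTower K F Ω] (w : Ω) (hw : Transcendental F w)
    (hgen : IntermediateField.adjoin F {w} = ⊤) (h : StablyRational K Ω) :
    StablyRational K F := by
  obtain ⟨m, N, ⟨e⟩⟩ := h
  have hind : AlgebraicIndependent F ![w] := by
    rw [algebraicIndependent_unique_type_iff]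
    exact hw
  have hgen' : IntermediateField.adjoin F (Set.range ![w] ∪ (∅ : Set Ω)) = ⊤ := by
    rw [Set.union_empty, Matrix.range_cons, Matrix.range_empty, Set.union_empty]
    exact hgen
  obtain ⟨w', hw', hg'⟩ := hEXV F Ω 1 m ![w] ∅ hind hgen'
  rw [Set.image_empty, Set.union_empty] at hg'
  obtain ⟨e1⟩ := equiv_of_gen _ hw' hg'
  obtain ⟨e2⟩ := equiv_index (K := K) (F := F) (finSumFinEquiv (m := 1) (n := m))
  refine ⟨1 + m, N, ⟨?_⟩⟩
  exact (e2.symm.trans (e1.symm.restrictScalars K)).trans e

end Pool.Agent.H12.UT
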