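import Pool.Agent.H12.UT.Targets2

/-!
MP_8b378c_ag, universal torsors: row A2.
-/

namespace Pool.Agent.H12.UT

open Polynomial

/-- The root of `p` is not zero. -/
theorem root_ne {κ : Type} [Field κ] (a : κ) (ha : ¬ IsSquare a) (p : κ[X])
    [hp : Fact (Irreducible p)] (hsq : IsSquare (AdjoinRoot.of p a)) : AdjoinRoot.root p ≠ 0 := by
  intro h0
  obtain ⟨r, hr⟩ := hsq
  -- every element of `AdjoinRoot p` is a constant
  obtain ⟨q, rfl⟩ := AdjoinRoot.mk_surjective r
  have h1 : AdjoinRoot.mk p X = 0 := by rw [AdjoinRoot.mk_X]; exact h0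
  have h2 : AdjoinRoot.mk p q = AdjoinRoot.of p (q.coeff 0) := by
    have h3 : q = X * q.divX + C (q.coeff 0) := (X_mul_divX_add q).symm
    conv_lhs => rw [h3]
    rw [map_add, map_mul, h1, zero_mul, zero_add, AdjoinRoot.mk_C]
  rw [h2, ← map_mul] at hr
  apply ha
  exact ⟨q.coeff 0, (AdjoinRoot.of p).injective hr⟩

theorem coeff_zero_mem {κ : Type} [Field κ] (a b d : κ) (H : κ → Prop) (hH : HG a b d H)
    (ha : ¬ IsSquare a) (p : κ[X]) (hmon : p.Monic) (hp : Irreducible p)
    (hsa : IsSquare (AdjoinRoot.of p a)) (hsb : IsSquare (AdjoinRoot.of p b))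
    (hsd : IsSquare (AdjoinRoot.of p d)) : p.coeff 0 ≠ 0 ∧ H (p.coeff 0) := by
  haveI : Fact (Irreducible p) := ⟨hp⟩
  have hroot := root_ne a ha p hsa
  have hp0 : p ≠ 0 := hp.ne_zero
  let pb := AdjoinRoot.powerBasis hp0
  haveI : FiniteDimensional κ (AdjoinRoot p) := pb.finite
  have hgen : pb.gen = AdjoinRoot.root p := AdjoinRoot.powerBasis_gen hp0
  have hdim : pb.dim = p.natDegree := AdjoinRoot.powerBasis_dim hp0
  have hmin : minpoly κ pb.gen = p := by
    rw [AdjoinRoot.minpoly_powerBasis_gen_of_monic hmon]
  have hnorm : Algebra.norm κ (-(AdjoinRoot.root p)) = p.coeff 0 := by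
    have h1 : -(AdjoinRoot.root p) = algebraMap κ (AdjoinRoot p) (-1) * AdjoinRoot.root p := by
      rw [map_neg, map_one, neg_one_mul]
    have h2 := Algebra.PowerBasis.norm_gen_eq_coeff_zero_minpoly pb
    rw [hmin, hgen] at h2
    rw [h1, map_mul, Algebra.norm_algebraMap, h2, PowerBasis.finrank pb, ← mul_assoc,
      ← mul_pow]
    simp
  have hH1 := hH.nrm (AdjoinRoot p) hsa hsb hsd (-(AdjoinRoot.root p)) (neg_ne_zero.mpr hroot)
  rw [hnorm] at hH1
  refine ⟨?_, hH1⟩
  rw [← hnorm]
  exact Algebra.norm_ne_zero_iff.mpr (neg_ne_zero.mpr hroot)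

theorem trail_of_coeff {κ : Type} [Field κ] (p : κ[X]) (h : p.coeff 0 ≠ 0) :
    p.trailingCoeff = p.coeff 0 := by
  have : p.natTrailingDegree = 0 := natTrailingDegree_eq_zero.mpr (Or.inr h)
  rw [trailingCoeff, this]

theorem A2_aux {κ : Type} [Field κ] (a b d : κ) (H : κ → Prop) (hH : HG a b d H)
    (ha : ¬ IsSquare a) : ∀ n : ℕ, ∀ f : κ[X], f.natDegree = n → f ≠ 0 →
    (∀ p : κ[X], Irreducible p → Odd (multiplicity p f) →
    IsSquare (AdjoinRoot.of p a) ∧ IsSquare (AdjoinRoot.of p b) ∧ IsSquare (AdjoinRoot.of p d)) →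
    H (f.trailingCoeff * f.leadingCoeff) := by
  intro n
  induction n using Nat.strong_induction_on with
  | _ n ih =>
    intro f hn hf hodd
    by_cases h0 : f.natDegree = 0
    · obtain ⟨c, rfl⟩ : ∃ c, f = C c := ⟨_, eq_C_of_natDegree_eq_zero h0⟩
      have hc : c ≠ 0 := by
        intro h; rw [h, C_0] at hf; exact hf rfl
      have h1 : (C c : κ[X]).trailingCoeff = c := by
        rw [trail_of_coeff _ (by rwa [coeff_C_zero]), coeff_C_zero]
      rw [h1, leadingCoeff_C, ← sq]
      exact hH.sq c hc
    · have hdeg : f.degree ≠ 0 := by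
        intro h
        exact h0 (natDegree_eq_of_degree_eq_some h)
      have hnu : ¬ IsUnit f := by
        intro hu
        exact h0 (natDegree_eq_zero_of_isUnit hu)
      obtain ⟨p, hpm, hpi, hpf⟩ := exists_monic_irreducible_factor f hnu
      have hpp : Prime p := hpi.prime
      have hpd : 0 < p.natDegree := hpi.natDegree_pos
      have fin : ∀ (q : κ[X]), Irreducible q → ∀ g : κ[X], g ≠ 0 → FiniteMultiplicity q g :=
        fun q hq g hg => FiniteMultiplicity.of_not_isUnit hq.not_isUnit hg
      obtain ⟨g, hg⟩ := hpf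
      have hg0 : g ≠ 0 := by
        rintro rfl; rw [mul_zero] at hg; exact hf hg
      by_cases hpg : p ∣ g
      · obtain ⟨h, hh⟩ := hpg
        have hh0 : h ≠ 0 := by
          rintro rfl; rw [mul_zero] at hh; exact hg0 hh
        have hfh : f = p * (p * h) := by rw [hg, hh]
        have hpt : p.trailingCoeff ≠ 0 := by
          rw [Ne, trailingCoeff_eq_zero]; exact hpi.ne_zero
        have hlt : h.natDegree < n := by
          rw [← hn, hfh, natDegree_mul hpi.ne_zero (mul_ne_zero hpi.ne_zero hh0),
            natDegree_mul hpi.ne_zero hh0]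
          omega
        have hrec := ih h.natDegree hlt h rfl hh0 (by
          intro q hq hqo
          refine hodd q hq ?_
          have h1 : multiplicity q f = multiplicity q p + (multiplicity q p + multiplicity q h) := by
            rw [hfh, multiplicity_mul hq.prime (by rw [← hfh]; exact fin q hq f hf),
              multiplicity_mul hq.prime (fin q hq _ (mul_ne_zero hpi.ne_zero hh0))]
          rw [h1, ← add_assoc]
          exact (Even.add_odd ⟨_, rfl⟩ hqo))
        have h2 : f.trailingCoeff * f.leadingCoeff =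
            p.trailingCoeff ^ 2 * (h.trailingCoeff * h.leadingCoeff) := by
          rw [hfh, trailingCoeff_mul, trailingCoeff_mul, leadingCoeff_mul, leadingCoeff_mul,
            hpm.leadingCoeff]
          ring
        rw [h2]
        exact hH.mul _ _ (hH.sq _ hpt) hrec
      · have hmp : multiplicity p f = 1 := by
          rw [hg, multiplicity_mul hpp (by rw [← hg]; exact fin p hpi f hf),
            multiplicity_eq_zero.mpr hpg]
          simp [multiplicity_self]
        obtain ⟨hsa, hsb, hsd⟩ := hodd p hpi (by rw [hmp]; exact odd_one)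
        obtain ⟨hc0, hHc⟩ := coeff_zero_mem a b d H hH ha p hpm hpi hsa hsb hsd
        have hlt : g.natDegree < n := by
          rw [← hn, hg, natDegree_mul hpi.ne_zero hg0]
          omega
        have hrec := ih g.natDegree hlt g rfl hg0 (by
          intro q hq hqo
          refine hodd q hq ?_
          have h1 : multiplicity q f = multiplicity q p + multiplicity q g := by
            rw [hg, multiplicity_mul hq.prime (by rw [← hg]; exact fin q hq f hf)]
          have h2 : multiplicity q p = 0 := by
            rw [multiplicity_eq_zero]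
            intro hqp
            have hass : Associated q p := hq.associated_of_dvd hpi hqp
            have h3 : ¬ q ∣ g := fun h => hpg (hass.symm.dvd.trans h)
            rw [multiplicity_eq_zero.mpr h3] at hqo
            exact absurd hqo (by decide)
          rw [h1, h2, zero_add]
          exact hqo)
        have h2 : f.trailingCoeff * f.leadingCoeff =
            p.coeff 0 * (g.trailingCoeff * g.leadingCoeff) := by
          rw [hg, trailingCoeff_mul, leadingCoeff_mul, hpm.leadingCoeff,
            trail_of_coeff p hc0]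
          ring
        rw [h2]
        exact hH.mul _ _ hHc hrec

theorem pf_A2 : T_A2 := by
  intro κ _ a b d H hH ha f hf hodd
  exact A2_aux a b d H hH ha f.natDegree f rfl hf hodd

end Pool.Agent.H12.UT
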