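import Pool.Agent.H12.UT.Small
import Pool.Agent.H12.UT.EXV
import Pool.Agent.H12.UT.A2
import Pool.Agent.H34.UT.A1
import Pool.Agent.H37.UT.B1
import Pool.Agent.H37.UT.HM
import Pool.Agent.H37.UT.CV1
import Pool.Agent.H37.UT.RD0
import Pool.Agent.H5.UT.AFF
import Pool.Agent.H5.UT.CO
import Pool.Agent.H5.UT.EXT
import Pool.Agent.H5.UT.FR
import Pool.Agent.H5.UT.JK
import Pool.Agent.H5.UT.NZ
import Pool.Agent.H5.UT.RD1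
import Pool.Agent.H66.UT.CV
import Pool.Agent.H66.UT.MON
import Pool.Agent.H66.UT.TRB
import Pool.Agent.H66.UT.UFD
import Pool.Agent.H81.UT.DAT
import Pool.Agent.H81.UT.SQ
import Pool.Agent.H52.UT.E1
import Pool.Agent.H52.UT.V1
import Pool.Agent.H11.UT.E3
import Pool.Agent.H31.UT.GAL
import Pool.Agent.H31.UT.NSQ
import Pool.Agent.H31.UT.UNI
import Pool.Agent.H32.UT.HGX
import Pool.Agent.H32.UT.NP
import Pool.Agent.H32.UT.PHI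
import Pool.Agent.H46.UT.LD
import Pool.Agent.H46.UT.USQ
import Pool.Agent.H20.UT.PS
import Pool.Agent.H20.UT.SIG
import Pool.Agent.H50.UT.SP
import Pool.Agent.H74.UT.PT

/-!
MP_8b378c_ag, universal torsors: everything together.
-/

namespace Pool.Agent.H12.UT

open Polynomial

theorem cl_E1 : T_E1 := Pool.Agent.H52.UT.pf_E1
theorem cl_E2 : T_E2 := Pool.Agent.H52.UT.pf_E2
theorem cl_E3 : T_E3 := Pool.Agent.H11.UT.pf_E3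
theorem cl_B1 : T_B1 := Pool.Agent.H37.UT.pf_B1
theorem cl_V1 : T_V1 := Pool.Agent.H52.UT.pf_V1 cl_B1
theorem cl_V2 : T_V2 := Pool.Agent.H52.UT.pf_V2 cl_B1
theorem cl_HM : T_HM := Pool.Agent.H37.UT.pf_HM
theorem cl_PS : T_PS := Pool.Agent.H20.UT.pf_PS cl_HM
theorem cl_NP : T_NP := Pool.Agent.H32.UT.pf_NP
theorem cl_CV : T_CV := Pool.Agent.H66.UT.pf_CV Pool.Agent.H37.UT.pf_CV1
theorem cl_CO : T_CO := Pool.Agent.H5.UT.pf_CO Pool.Agent.H34.UT.pf_A1 pf_A2 cl_E3 cl_PS cl_NP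
  cl_CV
theorem cl_PT : T_PT := Pool.Agent.H74.UT.pf_PT Pool.Agent.H81.UT.pf_SQ Pool.Agent.H5.UT.pf_AFF
theorem cl_LD : ∃ (L : Type) (_ : Field L) (_ : Algebra Kap L)
    (σ : Fin 3 → L ≃ₐ[Kap] L) (p : Fin 3 → L), LD L σ p :=
  Pool.Agent.H46.UT.pf_LD Pool.Agent.H66.UT.pf_UFD Pool.Agent.H20.UT.pf_SIG
    Pool.Agent.H31.UT.pf_UNI Pool.Agent.H46.UT.pf_USQ Pool.Agent.H32.UT.pf_PHI
theorem cl_HGX : ∃ H : Kap → Prop, HG aK bK dK H ∧ ¬ H (-1) :=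
  Pool.Agent.H32.UT.pf_HGX Pool.Agent.H31.UT.pf_GAL cl_LD
theorem cl_NSQ : ¬ IsSquare aK ∧ ¬ IsSquare bK ∧ ¬ IsSquare dK ∧ ¬ IsSquare gK ∧ ¬ NV gK 2 :=
  Pool.Agent.H31.UT.pf_NSQ Pool.Agent.H50.UT.pf_SP1 Pool.Agent.H50.UT.pf_SP2

/-- The theorem. -/
theorem final : Final :=
  fin_main cl_V1 cl_V2 cl_HM cl_E1 cl_E2 cl_CO cl_PT Pool.Agent.H5.UT.pf_EXT
    Pool.Agent.H66.UT.pf_MON Pool.Agent.H66.UT.pf_TRB Pool.Agent.H5.UT.pf_FR pf_EXV cl_HGX cl_NSQ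
    Pool.Agent.H5.UT.pf_NZ Pool.Agent.H5.UT.pf_JK Pool.Agent.H81.UT.pf_DAT
    Pool.Agent.H37.UT.pf_RD0 Pool.Agent.H5.UT.pf_RD1 pf_AB (pf_ABD Pool.Agent.H50.UT.pf_SP1)

end Pool.Agent.H12.UT
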