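import Pool.Agent.H12.UT.Targets2

/-!
MP_8b378c_ag, universal torsors: composition of the targets.
-/

namespace Pool.Agent.H12.UT

open Polynomial

/-- The field `F` is stably rational over `K`. -/
def StablyRational (K F : Type) [Field K] [Field F] [Algebra K F] : Prop :=
  ∃ m N : ℕ, Nonempty (FractionRing (MvPolynomial (Fin m) F) ≃ₐ[K]
    FractionRing (MvPolynomial (Fin N) K))

/-- The nine coordinates. -/
def nine {F : Type} (u v : F) (Y : Fin 5 → F) (Y' z : F) : Fin 9 → F :=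
  ![u, v, Y 0, Y 1, Y 2, Y 3, Y 4, Y', z]

/-- Existence of an embedding near a residue point. -/
theorem emb_of (hPT : T_PT) (hEXT : T_EXT) (κ K Ω : Type) [Field κ] [CharZero κ] [Field K]
    [Algebra K (HS κ)] [Field Ω] [Algebra K Ω]
    (A : Fin 5 → κ) (e c : Fin 5 → K) (c' : K) (P Q : K[X]) (U V : κ) (xr yr : Fin 5 → κ)
    (xr' yr' : κ) (m : ℕ) (ι : κ →+* K) (hι : ∀ r, algebraMap K (HS κ) (ι r) = HahnSeries.C r)
    (hGD : GD A e c c') (hRD : RD A P Q U V xr yr xr' yr') (he : ∀ i, 1 - e i ≠ 0)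
    (hγ : ∃ γ : Fin (9 + m) → ℝ, (∀ j, 0 < γ j) ∧
      AlgebraicIndependent K (fun j => (HahnSeries.single (γ j) 1 : HS κ)))
    (u v : Ω) (X Y : Fin 5 → Ω) (X' Y' y z : Ω) (w : Fin m → Ω)
    (hTZ : TZ e c c' P Q u v X Y X' Y' y z)
    (hind : AlgebraicIndependent K (Sum.elim (nine u v Y Y' z) w))
    (hgen : IntermediateField.adjoin K (Set.range (Sum.elim (nine u v Y Y' z) w) ∪
      (Set.range X ∪ {X', y})) = ⊤) :
    ∃ i : Ω →ₐ[K] HS κ, (i u).leadingCoeff = U := by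
  obtain ⟨u1, v1, X1, Y1, X1', Y1', y1, z1, w1, hT, hu1, hv1, hind1⟩ :=
    hPT κ K A e c c' P Q U V xr yr xr' yr' m ι hι hGD hRD hγ
  have hind1' : AlgebraicIndependent K (Sum.elim (nine u1 v1 Y1 Y1' z1) w1) := hind1
  have hfin := hEXT K Ω (HS κ) (Fin 9 ⊕ Fin m) (Sum.elim (nine u v Y Y' z) w)
    (Sum.elim (nine u1 v1 Y1 Y1' z1) w1) (Set.range X ∪ {X', y}) hind hind1' hgen
  suffices hS : _ by
    obtain ⟨i, hi⟩ := hfin hS
    refine ⟨i, ?_⟩
    have h0 := hi (Sum.inl 0)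
    have h1 : i u = u1 := h0
    rw [h1, hu1]
  · intro M hx θ hM hθ
    have hu : u ∈ M := hx (Sum.inl 0)
    have hv : v ∈ M := hx (Sum.inl 1)
    have hY : ∀ i, Y i ∈ M := by
      intro i
      fin_cases i
      · exact hx (Sum.inl 2)
      · exact hx (Sum.inl 3)
      · exact hx (Sum.inl 4)
      · exact hx (Sum.inl 5)
      · exact hx (Sum.inl 6)
    have hY' : Y' ∈ M := hx (Sum.inl 7)
    have hz : z ∈ M := hx (Sum.inl 8)
    have θu : θ ⟨u, hu⟩ = u1 := hθ (Sum.inl 0)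
    have θv : θ ⟨v, hv⟩ = v1 := hθ (Sum.inl 1)
    have θY : ∀ i, θ ⟨Y i, hY i⟩ = Y1 i := by
      intro i
      fin_cases i
      · exact hθ (Sum.inl 2)
      · exact hθ (Sum.inl 3)
      · exact hθ (Sum.inl 4)
      · exact hθ (Sum.inl 5)
      · exact hθ (Sum.inl 6)
    have θY' : θ ⟨Y', hY'⟩ = Y1' := hθ (Sum.inl 7)
    have θz : θ ⟨z, hz⟩ = z1 := hθ (Sum.inl 8)
    intro w hw
    rcases hw with ⟨i, rfl⟩ | hw
    · have hne : algebraMap K Ω (1 - e i) ≠ 0 := by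
        rw [Ne, map_eq_zero]; exact he i
      refine ⟨(⟨u, hu⟩ - algebraMap K M (e i) * ⟨v, hv⟩) / algebraMap K M (1 - e i) +
        algebraMap K M (c i) * ⟨Y i, hY i⟩ ^ 2, ?_, ?_⟩
      · have h1 : ((⟨u, hu⟩ - algebraMap K M (e i) * ⟨v, hv⟩ : M) : Ω) =
          u - algebraMap K Ω (e i) * v := rfl
        have h2 : (((⟨u, hu⟩ - algebraMap K M (e i) * ⟨v, hv⟩) / algebraMap K M (1 - e i) +
          algebraMap K M (c i) * ⟨Y i, hY i⟩ ^ 2 : M) : Ω) =
          (u - algebraMap K Ω (e i) * v) / algebraMap K Ω (1 - e i) +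
            algebraMap K Ω (c i) * Y i ^ 2 := rfl
        rw [h2, hTZ.eqs i]
        field_simp
        ring
      · refine ⟨X1 i, ?_⟩
        have hne1 : algebraMap K (HS κ) (1 - e i) ≠ 0 := by
          rw [Ne, map_eq_zero]; exact he i
        rw [map_add, map_div₀, map_sub, map_mul, map_mul, map_pow, AlgHom.commutes,
          AlgHom.commutes, AlgHom.commutes, θu, θv, θY, hT.eqs i]
        field_simp
        ring
    · rcases hw with rfl | hw
      · refine ⟨⟨v, hv⟩ + algebraMap K M c' * ⟨Y', hY'⟩ ^ 2, ?_, ?_⟩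
        · have h2 : ((⟨v, hv⟩ + algebraMap K M c' * ⟨Y', hY'⟩ ^ 2 : M) : Ω) =
            v + algebraMap K Ω c' * Y' ^ 2 := rfl
          rw [h2, hTZ.inf]
          ring
        · refine ⟨X1', ?_⟩
          rw [map_add, map_mul, map_pow, AlgHom.commutes, θv, θY', hT.inf]
          ring
      · have hw' : w = y := hw
        subst hw'
        have hs : ((⟨u, hu⟩ / ⟨v, hv⟩ : M) : Ω) = u / v := rfl
        have key : ∀ R : K[X], ((aeval (⟨u, hu⟩ / ⟨v, hv⟩ : M) R : M) : Ω) = aeval (u / v) R := by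
          intro R
          have := (Polynomial.aeval_algHom_apply M.val (⟨u, hu⟩ / ⟨v, hv⟩ : M) R)
          rw [← hs]
          exact this.symm
        refine ⟨aeval (⟨u, hu⟩ / ⟨v, hv⟩ : M) P + aeval (⟨u, hu⟩ / ⟨v, hv⟩ : M) Q * ⟨z, hz⟩ ^ 2,
          ?_, ?_⟩
        · rw [hTZ.con, ← key P, ← key Q]
          rfl
        · refine ⟨y1, ?_⟩
          rw [map_add, map_mul, map_pow, ← Polynomial.aeval_algHom_apply,
            ← Polynomial.aeval_algHom_apply, map_div₀, θu, θv, θz, ← hT.con]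
          ring

end Pool.Agent.H12.UT
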