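import Pool.Agent.H12.UT.Asm

/-!
MP_8b378c_ag, universal torsors: the composition.
-/

namespace Pool.Agent.H12.UT

open Polynomial

/-- The leading coefficient of a multiple. -/
theorem lead_of_cq {κ K : Type} [Field κ] [Field K] [Algebra K (HS κ)] (c q : K) (r : κ)
    (hq : q ≠ 0) (h : (algebraMap K (HS κ) (c * q ^ 2)).leadingCoeff = r) :
    ∃ s : κ, s ≠ 0 ∧ (algebraMap K (HS κ) c).leadingCoeff = r * s ^ 2 := by
  have hq' : (algebraMap K (HS κ) q).leadingCoeff ≠ 0 := by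
    rw [HahnSeries.leadingCoeff_ne_zero, Ne, map_eq_zero]
    exact hq
  refine ⟨((algebraMap K (HS κ) q).leadingCoeff)⁻¹, inv_ne_zero hq', ?_⟩
  rw [map_mul, map_pow, sq, HahnSeries.leadingCoeff_mul, HahnSeries.leadingCoeff_mul] at h
  rw [← h]
  field_simp

/-- The leading coefficient of `u` under all homomorphisms to `κ(ν){{T}}` is a norm. -/
theorem nv_of (hV1 : T_V1) (hV2 : T_V2) (hHM : T_HM) (hE1 : T_E1) (hE2 : T_E2)
    (κ E K Ω : Type) [Field κ] [Field E] [Field K] [Field Ω] [Algebra κ[X] E]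
    [IsFractionRing κ[X] E] [Algebra K (HS κ)] [Algebra K Ω]
    (A : Fin 5 → κ) (e c : Fin 5 → K) (c' : K) (P Q : K[X]) (hGD : GD A e c c')
    (hA : ∀ i, i ≠ 3 → ¬ IsSquare (A i)) (hg : ¬ NV (A 4) 2)
    (u v : Ω) (X Y : Fin 5 → Ω) (X' Y' y z : Ω) (hu : u ≠ 0) (hv : v ≠ 0)
    (hTZ : TZ e c c' P Q u v X Y X' Y' y z) (χ : Ω →+* HS E)
    (hχ : ∀ c : K, χ (algebraMap K Ω c) =
      hmap ((algebraMap κ[X] E).comp C) (algebraMap K (HS κ) c)) (i : Fin 5) (hi3 : i ≠ 3)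
    (hi4 : i ≠ 4) :
    NV (algebraMap κ[X] E (C (A i))) (χ u).leadingCoeff := by
  have hχu : χ u ≠ 0 := by rwa [Ne, map_eq_zero]
  have hχv : χ v ≠ 0 := by rwa [Ne, map_eq_zero]
  have hlead : ∀ (a : κ) (k : K), (∃ q : K, q ≠ 0 ∧
      (algebraMap K (HS κ) (k * q ^ 2)).order = 0 ∧
      (algebraMap K (HS κ) (k * q ^ 2)).leadingCoeff = a) → ∃ r : E, r ≠ 0 ∧
      (hmap ((algebraMap κ[X] E).comp C) (algebraMap K (HS κ) k)).leadingCoeff =
        algebraMap κ[X] E (C a) * r ^ 2 := by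
    rintro a k ⟨q, hq, -, hq2⟩
    obtain ⟨s, hs, hs2⟩ := lead_of_cq k q a hq hq2
    refine ⟨((algebraMap κ[X] E).comp C) s, ?_, ?_⟩
    · rwa [Ne, map_eq_zero]
    · rw [(hHM κ E _ _).2.1, hs2, map_mul, map_pow]
      rfl
  have hord : (χ u).order ≤ (χ v).order := by
    obtain ⟨r, hr, hr2⟩ := hlead _ _ (hGD.cq 4)
    obtain ⟨r', hr', hr2'⟩ := hlead _ _ hGD.cq'
    refine hV2 E (algebraMap κ[X] E (C (A 4))) r r' _ _ (χ u) (χ v) (χ (X 4)) (χ (Y 4)) (χ X')
      (χ Y') (hE1 κ E _ (hA 4 (by decide))) (hE2 κ E _ (hA 4 (by decide)) hg) hr hr' hr2 hr2'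
      hχu hχv ?_ ?_
    · have h := congrArg χ (hTZ.eqs 4)
      rw [hGD.e4] at h
      rw [← hχ (c 4)]
      have h2 : (algebraMap K Ω (1 - -1)) = 2 := by
        rw [sub_neg_eq_add, one_add_one_eq_two, map_ofNat]
      rw [h2] at h
      simp only [map_sub, map_mul, map_neg, map_one, map_pow, map_ofNat] at h
      linear_combination h
    · have h := congrArg χ hTZ.inf
      rw [← hχ c']
      simp only [map_sub, map_mul, map_pow] at h
      exact h
  obtain ⟨r, hr, hr2⟩ := hlead _ _ (hGD.cq i)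
  refine hV1 E (algebraMap κ[X] E (C (A i))) r
    (hmap ((algebraMap κ[X] E).comp C) (algebraMap K (HS κ) (e i))) _ (χ u) (χ v)
    (χ (X i)) (χ (Y i)) (hE1 κ E _ (hA i hi3)) hr hr2 ?_ hχu hχv hord ?_
  · rcases hGD.e0 i hi4 with h | h
    · left
      rw [h, map_zero]
    · right
      rw [(hHM κ E _ _).1]
      exact h
  · have h := congrArg χ (hTZ.eqs i)
    rw [← hχ (c i), ← hχ (e i)]
    simp only [map_sub, map_mul, map_one, map_pow] at h ⊢
    exact h

/-- The zero in a bigger field. -/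
theorem tz_map {K F Ω : Type} [Field K] [Field F] [Field Ω] [Algebra K F] [Algebra F Ω]
    [Algebra K Ω] [IsScalarTower K F Ω] (e c : Fin 5 → K) (c' : K) (P Q : K[X])
    (u v : F) (X Y : Fin 5 → F) (X' Y' y z : F) (hTZ : TZ e c c' P Q u v X Y X' Y' y z) :
    TZ e c c' P Q (algebraMap F Ω u) (algebraMap F Ω v)
      (fun i => algebraMap F Ω (X i)) (fun i => algebraMap F Ω (Y i)) (algebraMap F Ω X')
      (algebraMap F Ω Y') (algebraMap F Ω y) (algebraMap F Ω z) := by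
  have hal : ∀ k : K, algebraMap K Ω k = algebraMap F Ω (algebraMap K F k) := fun k =>
    IsScalarTower.algebraMap_apply K F Ω k
  have hae : ∀ R : K[X], aeval (algebraMap F Ω u / algebraMap F Ω v) R =
      algebraMap F Ω (aeval (u / v) R) := by
    intro R
    rw [← map_div₀]
    exact Polynomial.aeval_algebraMap_apply Ω (u / v) R
  refine ⟨?_, ?_, ?_⟩
  · intro i
    have h := congrArg (algebraMap F Ω) (hTZ.eqs i)
    simp only [map_sub, map_mul, map_pow, hal] at h ⊢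
    exact h
  · have h := congrArg (algebraMap F Ω) hTZ.inf
    simp only [map_sub, map_mul, map_pow, hal] at h ⊢
    exact h
  · have h := congrArg (algebraMap F Ω) hTZ.con
    simp only [map_add, map_mul, map_pow] at h
    rw [hae, hae]
    exact h

/-- The other coordinates are square roots of elements of the field of the nine coordinates. -/
theorem sq_mem {K F : Type} [Field K] [Field F] [Algebra K F] (e c : Fin 5 → K) (c' : K)
    (P Q : K[X]) (he : ∀ i, 1 - e i ≠ 0)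
    (u v : F) (X Y : Fin 5 → F) (X' Y' y z : F) (hTZ : TZ e c c' P Q u v X Y X' Y' y z) :
    ∀ w ∈ (Set.range X ∪ {X', y} : Set F), w ^ 2 ∈
      IntermediateField.adjoin K (Set.range (nine u v Y Y' z)) := by
  set M := IntermediateField.adjoin K (Set.range (nine u v Y Y' z)) with hMdef
  have hmem : ∀ k, nine u v Y Y' z k ∈ M := fun k =>
    IntermediateField.subset_adjoin _ _ ⟨k, rfl⟩
  have hu : u ∈ M := hmem 0
  have hv : v ∈ M := hmem 1
  have hY : ∀ i, Y i ∈ M := by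
    intro i
    fin_cases i
    · exact hmem 2
    · exact hmem 3
    · exact hmem 4
    · exact hmem 5
    · exact hmem 6
  have hY' : Y' ∈ M := hmem 7
  have hz : z ∈ M := hmem 8
  intro w hw
  rcases hw with ⟨i, rfl⟩ | hw
  · have hne : algebraMap K F (1 - e i) ≠ 0 := by
      rw [Ne, map_eq_zero]; exact he i
    have h1 : X i ^ 2 = (u - algebraMap K F (e i) * v) / algebraMap K F (1 - e i) +
        algebraMap K F (c i) * Y i ^ 2 := by
      rw [hTZ.eqs i]
      field_simp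
      ring
    rw [h1]
    exact M.add_mem (M.div_mem (M.sub_mem hu (M.mul_mem (M.algebraMap_mem _) hv))
      (M.algebraMap_mem _)) (M.mul_mem (M.algebraMap_mem _) (pow_mem (hY i) 2))
  · rcases hw with rfl | hw
    · have h1 : w ^ 2 = v + algebraMap K F c' * Y' ^ 2 := by
        rw [hTZ.inf]; ring
      rw [h1]
      exact M.add_mem hv (M.mul_mem (M.algebraMap_mem _) (pow_mem hY' 2))
    · have hw' : w = y := hw
      subst hw'
      have hval : ∀ R : K[X], aeval (u / v) R ∈ M := by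
        intro R
        have := (Polynomial.aeval_algHom_apply M.val (⟨u, hu⟩ / ⟨v, hv⟩ : M) R)
        have h2 : M.val (⟨u, hu⟩ / ⟨v, hv⟩ : M) = u / v := rfl
        rw [h2] at this
        rw [this]
        exact (aeval (⟨u, hu⟩ / ⟨v, hv⟩ : M) R).2
      rw [hTZ.con]
      exact M.add_mem (hval _) (M.mul_mem (hval _) (pow_mem hz 2))

/-- Two embeddings with different classes are impossible. -/
theorem core (hV1 : T_V1) (hV2 : T_V2) (hHM : T_HM) (hE1 : T_E1) (hE2 : T_E2) (hCO : T_CO)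
    (hPT : T_PT) (hEXT : T_EXT) (κ E K Ω : Type) [Field κ] [CharZero κ] [Field E] [Field K]
    [Field Ω] [Algebra κ[X] E]
    [IsFractionRing κ[X] E] [Algebra K (HS κ)] [Algebra K Ω]
    (A : Fin 5 → κ) (e c : Fin 5 → K) (c' : K) (P Q : K[X]) (H : κ → Prop)
    (hHG : HG (A 0) (A 1) (A 2) H) (hneg : ¬ H (-1))
    (hA : ∀ i, i ≠ 3 → ¬ IsSquare (A i)) (hg : ¬ NV (A 4) 2)
    (hGD : GD A e c c') (x0 y0 : Fin 5 → κ) (x0' y0' : κ) (hR0 : RD A P Q 1 1 x0 y0 x0' y0')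
    (x1 y1 : Fin 5 → κ) (x1' y1' : κ) (hR1 : RD A P Q (-1) 9 x1 y1 x1' y1')
    (he : ∀ i, 1 - e i ≠ 0) (m : ℕ) (ι : κ →+* K)
    (hι : ∀ r, algebraMap K (HS κ) (ι r) = HahnSeries.C r)
    (hγ : ∃ γ : Fin (9 + m) → ℝ, (∀ j, 0 < γ j) ∧
      AlgebraicIndependent K (fun j => (HahnSeries.single (γ j) 1 : HS κ)))
    (u v : Ω) (X Y : Fin 5 → Ω) (X' Y' y z : Ω) (w : Fin m → Ω)
    (hTZ : TZ e c c' P Q u v X Y X' Y' y z)
    (hind : AlgebraicIndependent K (Sum.elim (nine u v Y Y' z) w))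
    (hgen : IntermediateField.adjoin K (Set.range (Sum.elim (nine u v Y Y' z) w) ∪
      (Set.range X ∪ {X', y})) = ⊤)
    (N : ℕ) (t : Fin N → Ω) (htind : AlgebraicIndependent K t)
    (htgen : IntermediateField.adjoin K (Set.range t) = ⊤) : False := by
  obtain ⟨i0, hi0⟩ := emb_of hPT hEXT κ K Ω A e c c' P Q 1 1 x0 y0 x0' y0' m
    ι hι hGD hR0 he hγ u v X Y X' Y' y z w hTZ hind hgen
  obtain ⟨i1, hi1⟩ := emb_of hPT hEXT κ K Ω A e c c' P Q (-1) 9 x1 y1 x1' y1' m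
    ι hι hGD hR1 he hγ u v X Y X' Y' y z w hTZ hind hgen
  have hu0 : u ≠ 0 := hind.ne_zero (Sum.inl 0)
  have hv0 : v ≠ 0 := hind.ne_zero (Sum.inl 1)
  have hres := hCO κ E K Ω (A 0) (A 1) (A 2) H hHG (hA 0 (by decide)) (hA 1 (by decide))
    (hA 2 (by decide)) N t htind htgen i0 i1 u hu0 (fun χ hχ => by
      have h := nv_of hV1 hV2 hHM hE1 hE2 κ E K Ω A e c
        c' P Q hGD hA hg u v X Y X' Y' y z hu0 hv0 hTZ χ hχ
      exact ⟨h 0 (by decide) (by decide), h 1 (by decide) (by decide),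
        h 2 (by decide) (by decide)⟩)
  rw [hi0, hi1, one_mul] at hres
  exact hneg hres

/-- The explicit torsor is not stably rational. -/
theorem main (hV1 : T_V1) (hV2 : T_V2) (hHM : T_HM) (hE1 : T_E1) (hE2 : T_E2) (hCO : T_CO)
    (hPT : T_PT) (hEXT : T_EXT) (hMON : T_MON) (hTRB : T_TRB) (hFR : T_FR) (hEXV : T_EXV)
    (hHGX : ∃ H : Kap → Prop, HG aK bK dK H ∧ ¬ H (-1))
    (hNSQ : ¬ IsSquare aK ∧ ¬ IsSquare bK ∧ ¬ IsSquare dK ∧ ¬ IsSquare gK ∧ ¬ NV gK 2)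
    (hNZ : T_NZ) (hJK : T_JK) (hDAT : T_DAT) (hRD0 : T_RD0) (hRD1 : T_RD1) :
    ∀ (F : Type) [Field F] [Algebra KK F] (u v : F) (X Y : Fin 5 → F) (X' Y' y z : F),
    TZ eK rK QK.leadingCoeff PK QK u v X Y X' Y' y z →
    IntermediateField.adjoin KK (Set.range (nine u v Y Y' z) ∪ (Set.range X ∪ {X', y})) = ⊤ →
    Algebra.trdeg KK F = 9 → ¬ StablyRational KK F := by
  intro F _ _ u v X Y X' Y' y z hTZ hgen htr hSR
  obtain ⟨m, N, hmN⟩ := hSR
  obtain ⟨t, htind, htgen⟩ := hFR KK _ N hmN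
  obtain ⟨j, hjc, hjt⟩ := hJK
  let instJ : Algebra KK (HS Kap) := j.toAlgebra
  have hjc' : ∀ c, algebraMap KK (HS Kap) (cK c) = HahnSeries.C c := hjc
  have hjt' : algebraMap KK (HS Kap) tK = HahnSeries.single 1 1 := hjt
  have hGD := hDAT hNZ hjc' hjt'
  obtain ⟨x0, y0, x0', y0', hR0⟩ := hRD0 hNZ hjc' hjt'
  obtain ⟨x1, y1, x1', y1', hR1⟩ := hRD1 hNZ hjc' hjt'
  obtain ⟨H, hHG, hneg⟩ := hHGX
  have he : ∀ i, 1 - eK i ≠ 0 := by
    intro i
    by_cases hi : i = 4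
    · rw [hi, hGD.e4, sub_neg_eq_add, one_add_one_eq_two]
      exact two_ne_zero
    · intro h0
      have h1 : eK i = 1 := (sub_eq_zero.mp h0).symm
      rcases hGD.e0 i hi with h | h
      · rw [h1, map_one] at h
        exact one_ne_zero h
      · rw [h1, map_one, HahnSeries.order_one] at h
        exact lt_irrefl _ h
  have hM := sq_mem eK rK QK.leadingCoeff PK QK he u v X Y X' Y' y z hTZ
  have hind9 := hTRB KK F 9 (nine u v Y Y' z) (Set.range X ∪ {X', y}) hgen hM htr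
  obtain ⟨w, hwind, hwgen⟩ := hEXV KK F 9 m (nine u v Y Y' z) (Set.range X ∪ {X', y}) hind9 hgen
  have hcomp : (fun j => algebraMap F (FractionRing (MvPolynomial (Fin m) F))
      (nine u v Y Y' z j)) =
      nine (algebraMap F _ u) (algebraMap F _ v) (fun i => algebraMap F _ (Y i))
        (algebraMap F _ Y') (algebraMap F _ z) := by
    funext k
    fin_cases k <;> rfl
  rw [hcomp] at hwind hwgen
  rw [Set.image_union, Set.image_pair, ← Set.range_comp] at hwgen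
  have hA : ∀ i, i ≠ 3 → ¬ IsSquare (AK i) := by
    intro i hi
    fin_cases i
    · exact hNSQ.1
    · exact hNSQ.2.1
    · exact hNSQ.2.2.1
    · exact absurd rfl hi
    · exact hNSQ.2.2.2.1
  obtain ⟨γ, hγpos, hγ⟩ := hMON Kap (9 + m)
  exact core hV1 hV2 hHM hE1 hE2 hCO hPT hEXT Kap (FractionRing Kap[X]) KK _ AK eK rK
    QK.leadingCoeff PK QK H hHG hneg hA hNSQ.2.2.2.2 hGD x0 y0 x0' y0' hR0 x1 y1 x1' y1' hR1 he m
    cK hjc' ⟨γ, hγpos, hγ KK (fun c => hjc c) hjt⟩ _ _ _ _ _ _ _ _ w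
    (tz_map eK rK QK.leadingCoeff PK QK u v X Y X' Y' y z hTZ) hwind hwgen N t htind htgen

end Pool.Agent.H12.UT
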