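import Mathlib

/-!
MP_8b378c_ag, universal torsors: basic definitions.
-/

namespace Pool.Agent.H12.UT

open Polynomial

/-- `n` is a value of the norm form `X ^ 2 - c * Y ^ 2`. -/
def NV {E : Type*} [CommRing E] (c n : E) : Prop := ∃ x y : E, n = x ^ 2 - c * y ^ 2

/-- The polynomial `f` is a value of the norm form `X ^ 2 - a * Y ^ 2` over the field of
rational functions. -/
def NVX {κ : Type*} [Field κ] (a : κ) (f : κ[X]) : Prop :=
  ∃ A B D : κ[X], D ≠ 0 ∧ D ^ 2 * f = A ^ 2 - C a * B ^ 2

/-- `H` is a multiplicatively closed set of elements of `κ` which contains the squares and the norms of all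
finite extensions in which `a`, `b`, `d` are squares. -/
structure HG {κ : Type} [Field κ] (a b d : κ) (H : κ → Prop) : Prop where
  sq : ∀ c : κ, c ≠ 0 → H (c ^ 2)
  mul : ∀ x y : κ, H x → H y → H (x * y)
  nrm : ∀ (M : Type) [Field M] [Algebra κ M] [FiniteDimensional κ M],
    IsSquare (algebraMap κ M a) → IsSquare (algebraMap κ M b) → IsSquare (algebraMap κ M d) →
    ∀ θ : M, θ ≠ 0 → H (Algebra.norm κ θ)

/-- Hahn series with real exponents. -/
abbrev HS (E : Type) [Field E] : Type := HahnSeries ℝ E

/-- Coefficientwise map of Hahn series. -/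
noncomputable def hmap {κ E : Type} [Field κ] [Field E] (i : κ →+* E) : HS κ →+* HS E where
  toFun x := x.map i
  map_one' := HahnSeries.map_one i.toMonoidWithZeroHom
  map_mul' x y := HahnSeries.map_mul (i : κ →ₙ+* E) 
  map_zero' := HahnSeries.map_zero (i : ZeroHom κ E)
  map_add' x y := by
    ext s
    simp [HahnSeries.map]

/-- The ring homomorphism of `κ{{T}}[lam]` to `E{{T}}` which sends `lam` to `nu T^s`. -/
noncomputable def ps {κ E : Type} [Field κ] [Field E] (i : κ →+* E) (ν : E) (s : ℝ) :
    (HS κ)[X] →+* HS E :=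
  eval₂RingHom (hmap i) (HahnSeries.single s ν)

end Pool.Agent.H12.UT
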