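import Pool.Agent.H12.UT.Asm2

/-!
MP_8b378c_ag, universal torsors: a generic zero exists.
-/

namespace Pool.Agent.H12.UT

open Polynomial

/-- Algebraicity over the algebra generated by `x`. -/
theorem isAlg_of_sq {K F : Type} [Field K] [Field F] [Algebra K F] {n : ℕ} (x : Fin n → F)
    (S : Set F) (htop : IntermediateField.adjoin K (Set.range x ∪ S) = ⊤)
    (hS : ∀ w ∈ S, w ^ 2 ∈ IntermediateField.adjoin K (Set.range x)) :
    Algebra.IsAlgebraic (Algebra.adjoin K (Set.range x)) F := by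
  have hint : ∀ w ∈ S, IsIntegral (IntermediateField.adjoin K (Set.range x)) w := by
    intro w hw
    refine IsIntegral.of_pow (n := 2) (by norm_num) ?_
    exact isIntegral_algebraMap
      (x := (⟨w ^ 2, hS w hw⟩ : IntermediateField.adjoin K (Set.range x)))
  have halg := IntermediateField.isAlgebraic_adjoin hint
  have htop' : ∀ y : F, y ∈ IntermediateField.adjoin
      (IntermediateField.adjoin K (Set.range x)) S := by
    intro y
    have h1 : y ∈ (IntermediateField.adjoin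
      (IntermediateField.adjoin K (Set.range x)) S).restrictScalars K := by
      rw [IntermediateField.adjoin_adjoin_left, htop]
      exact IntermediateField.mem_top
    exact h1
  have halg2 : Algebra.IsAlgebraic (IntermediateField.adjoin K (Set.range x)) F := by
    refine ⟨fun y => ?_⟩
    exact IntermediateField.isAlgebraic_iff.1 (halg.isAlgebraic ⟨y, htop' y⟩)
  exact IntermediateField.isAlgebraic_adjoin_iff_top.1 halg2

/-- A subfield generated by a zero with independent coordinates. -/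
theorem exists_of_zero {K k : Type} [Field K] [Field k] [Algebra K k] (e c : Fin 5 → K) (c' : K)
    (P Q : K[X]) (he : ∀ i, 1 - e i ≠ 0) (u v : k) (X Y : Fin 5 → k) (X' Y' y z : k)
    (hTZ : TZ e c c' P Q u v X Y X' Y' y z) (hind : AlgebraicIndependent K (nine u v Y Y' z)) :
    ∃ (F : Type) (_ : Field F) (_ : Algebra K F) (u v : F) (X Y : Fin 5 → F) (X' Y' y z : F),
      TZ e c c' P Q u v X Y X' Y' y z ∧
      IntermediateField.adjoin K (Set.range (nine u v Y Y' z) ∪ (Set.range X ∪ {X', y})) = ⊤ ∧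
      Algebra.trdeg K F = 9 := by
  set M := IntermediateField.adjoin K (Set.range (nine u v Y Y' z) ∪ (Set.range X ∪ {X', y}))
    with hM
  have hmem : ∀ w ∈ (Set.range (nine u v Y Y' z) ∪ (Set.range X ∪ {X', y}) : Set k), w ∈ M :=
    fun w hw => IntermediateField.subset_adjoin _ _ hw
  have hnine : ∀ k, nine u v Y Y' z k ∈ M := fun k => hmem _ (Or.inl ⟨k, rfl⟩)
  have hu : u ∈ M := hnine 0
  have hv : v ∈ M := hnine 1
  have hY : ∀ i, Y i ∈ M := by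
    intro i
    fin_cases i
    · exact hnine 2
    · exact hnine 3
    · exact hnine 4
    · exact hnine 5
    · exact hnine 6
  have hY' : Y' ∈ M := hnine 7
  have hz : z ∈ M := hnine 8
  have hX : ∀ i, X i ∈ M := fun i => hmem _ (Or.inr (Or.inl ⟨i, rfl⟩))
  have hX' : X' ∈ M := hmem _ (Or.inr (Or.inr (Or.inl rfl)))
  have hy : y ∈ M := hmem _ (Or.inr (Or.inr (Or.inr rfl)))
  have hTZ' : TZ e c c' P Q (⟨u, hu⟩ : M) ⟨v, hv⟩ (fun i => ⟨X i, hX i⟩) (fun i => ⟨Y i, hY i⟩)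
      ⟨X', hX'⟩ ⟨Y', hY'⟩ ⟨y, hy⟩ ⟨z, hz⟩ := by
    have hval : ∀ R : K[X], ((aeval ((⟨u, hu⟩ : M) / ⟨v, hv⟩) R : M) : k) = aeval (u / v) R := by
      intro R
      exact (Polynomial.aeval_algHom_apply M.val (⟨u, hu⟩ / ⟨v, hv⟩ : M) R).symm
    refine ⟨?_, ?_, ?_⟩
    · intro i
      apply Subtype.ext
      exact hTZ.eqs i
    · apply Subtype.ext
      exact hTZ.inf
    · apply Subtype.ext
      have h : ((aeval ((⟨u, hu⟩ : M) / ⟨v, hv⟩) P + aeval ((⟨u, hu⟩ : M) / ⟨v, hv⟩) Q *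
        ⟨z, hz⟩ ^ 2 : M) : k) = aeval (u / v) P + aeval (u / v) Q * z ^ 2 := by
        rw [← hval P, ← hval Q]
        rfl
      rw [h]
      exact hTZ.con
  have hfun : (fun k => (nine (⟨u, hu⟩ : M) ⟨v, hv⟩ (fun i => ⟨Y i, hY i⟩) ⟨Y', hY'⟩ ⟨z, hz⟩ k : M)) =
      fun k => ⟨nine u v Y Y' z k, hnine k⟩ := by
    funext k
    fin_cases k <;> rfl
  have hgen : IntermediateField.adjoin K (Set.range (nine (⟨u, hu⟩ : M) ⟨v, hv⟩
      (fun i => ⟨Y i, hY i⟩) ⟨Y', hY'⟩ ⟨z, hz⟩) ∪ (Set.range (fun i => (⟨X i, hX i⟩ : M)) ∪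
      {⟨X', hX'⟩, ⟨y, hy⟩})) = ⊤ := by
    apply IntermediateField.map_injective M.val
    rw [IntermediateField.adjoin_map]
    have h1 : (M.val : M → k) '' (Set.range (nine (⟨u, hu⟩ : M) ⟨v, hv⟩
      (fun i => ⟨Y i, hY i⟩) ⟨Y', hY'⟩ ⟨z, hz⟩) ∪ (Set.range (fun i => (⟨X i, hX i⟩ : M)) ∪
      {⟨X', hX'⟩, ⟨y, hy⟩})) = Set.range (nine u v Y Y' z) ∪ (Set.range X ∪ {X', y}) := by
      have h2 := hfun
      change nine (⟨u, hu⟩ : M) ⟨v, hv⟩ (fun i => ⟨Y i, hY i⟩) ⟨Y', hY'⟩ ⟨z, hz⟩ = _ at h2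
      rw [h2, Set.image_union, Set.image_union, Set.image_pair, ← Set.range_comp,
        ← Set.range_comp]
      rfl
    rw [h1, ← hM]
    ext w
    constructor
    · intro hw
      exact ⟨⟨w, hw⟩, trivial, rfl⟩
    · rintro ⟨w', -, rfl⟩
      exact w'.2
  refine ⟨M, inferInstance, inferInstance, ⟨u, hu⟩, ⟨v, hv⟩, fun i => ⟨X i, hX i⟩,
    fun i => ⟨Y i, hY i⟩, ⟨X', hX'⟩, ⟨Y', hY'⟩, ⟨y, hy⟩, ⟨z, hz⟩, hTZ', hgen, ?_⟩
  -- transcendence degree
  have hind' : AlgebraicIndependent K (nine (⟨u, hu⟩ : M) ⟨v, hv⟩ (fun i => ⟨Y i, hY i⟩)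
      ⟨Y', hY'⟩ ⟨z, hz⟩) := by
    have h2 := hfun
    change nine (⟨u, hu⟩ : M) ⟨v, hv⟩ (fun i => ⟨Y i, hY i⟩) ⟨Y', hY'⟩ ⟨z, hz⟩ = _ at h2
    rw [h2]
    exact AlgebraicIndependent.of_comp M.val hind
  have hM2 := sq_mem e c c' P Q he (⟨u, hu⟩ : M) ⟨v, hv⟩ (fun i => ⟨X i, hX i⟩)
    (fun i => ⟨Y i, hY i⟩) ⟨X', hX'⟩ ⟨Y', hY'⟩ ⟨y, hy⟩ ⟨z, hz⟩ hTZ'
  have hbas : IsTranscendenceBasis K (nine (⟨u, hu⟩ : M) ⟨v, hv⟩ (fun i => ⟨Y i, hY i⟩)
      ⟨Y', hY'⟩ ⟨z, hz⟩) := by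
    rw [hind'.isTranscendenceBasis_iff_isAlgebraic]
    exact isAlg_of_sq _ _ hgen hM2
  have := hbas.cardinalMk_eq_trdeg
  rw [← this]
  simp

end Pool.Agent.H12.UT
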