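import Pool.Agent.H12.UT.Stmt

/-!
MP_8b378c_ag, universal torsors: the properties of the surface and the bridge between the two forms
of the equations.
-/

namespace Pool.Agent.H12.UT

open Polynomial

/-- One more non-vanishing: `a b ≠ 1`. -/
def T_AB : Prop := aK * bK ≠ 1

theorem eK_inj (hNZ : T_NZ) (hAB : T_AB) : Function.Injective eK := by
  obtain ⟨-, ha, hb, hd, h3, h4, -, -⟩ := hNZ
  have h3' : cK m3 ≠ 0 := by rwa [Ne, map_eq_zero]
  have h4' : cK m4 ≠ 0 := by rwa [Ne, map_eq_zero]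
  have ht := tK_ne_zero
  have e0 : eK 0 = 0 := rfl
  have e1 : eK 1 = tK := rfl
  have e2 : eK 2 = -tK / cK m3 := rfl
  have e3 : eK 3 = -tK / cK m4 := rfl
  have e4 : eK 4 = -1 := rfl
  have hm31 : m3 + 1 = 2 * dK := by unfold m3 dK; ring
  have hm41 : m4 + 1 = 2 * aK * bK * dK := by unfold m4; ring
  have hK : ∀ c : Kap, c ≠ 0 → cK c ≠ 0 := fun c hc => by rwa [Ne, map_eq_zero]
  have n2 : eK 2 ≠ 0 := by
    rw [e2]; exact div_ne_zero (neg_ne_zero.mpr ht) h3'
  have n3 : eK 3 ≠ 0 := by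
    rw [e3]; exact div_ne_zero (neg_ne_zero.mpr ht) h4'
  have h12 : eK 1 ≠ eK 2 := by
    rw [e1, e2]
    intro h
    rw [eq_div_iff h3'] at h
    have h1 : tK * cK (m3 + 1) = 0 := by rw [map_add, map_one]; linear_combination h
    rw [hm31] at h1
    exact (mul_ne_zero ht (hK _ (mul_ne_zero two_ne_zero hd))) h1
  have h13 : eK 1 ≠ eK 3 := by
    rw [e1, e3]
    intro h
    rw [eq_div_iff h4'] at h
    have h1 : tK * cK (m4 + 1) = 0 := by rw [map_add, map_one]; linear_combination h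
    rw [hm41] at h1
    exact (mul_ne_zero ht (hK _ (mul_ne_zero (mul_ne_zero (mul_ne_zero two_ne_zero ha) hb)
      hd))) h1
  have h23 : eK 2 ≠ eK 3 := by
    rw [e2, e3]
    intro h
    rw [div_eq_div_iff h3' h4'] at h
    have h1 : tK * cK (m4 - m3) = 0 := by rw [map_sub]; linear_combination -h
    have h2 : m4 - m3 = 2 * dK * (aK * bK - 1) := by unfold m3 m4 dK; ring
    rw [h2] at h1
    exact (mul_ne_zero ht (hK _ (mul_ne_zero (mul_ne_zero two_ne_zero hd)
      (sub_ne_zero.mpr hAB)))) h1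
  have h14 : eK 1 ≠ eK 4 := by
    rw [e1, e4]
    have := tK_ne (-1)
    rwa [map_neg, map_one] at this
  have h24 : eK 2 ≠ eK 4 := by
    rw [e2, e4]
    intro h
    rw [div_eq_iff h3'] at h
    exact tK_ne m3 (by linear_combination -h)
  have h34 : eK 3 ≠ eK 4 := by
    rw [e3, e4]
    intro h
    rw [div_eq_iff h4'] at h
    exact tK_ne m4 (by linear_combination -h)
  have h01 : eK 0 ≠ eK 1 := by rw [e0, e1]; exact ht.symm
  have h02 : eK 0 ≠ eK 2 := by rw [e0]; exact n2.symm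
  have h03 : eK 0 ≠ eK 3 := by rw [e0]; exact n3.symm
  have h04 : eK 0 ≠ eK 4 := by
    rw [e0, e4]
    intro h
    exact one_ne_zero (by linear_combination h : (1 : KK) = 0)
  intro i j hij
  fin_cases i <;> fin_cases j <;>
    first
    | rfl
    | exact absurd hij h01
    | exact absurd hij h02
    | exact absurd hij h03
    | exact absurd hij h04
    | exact absurd hij h12
    | exact absurd hij h13
    | exact absurd hij h14
    | exact absurd hij h23
    | exact absurd hij h24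
    | exact absurd hij h34
    | exact absurd hij.symm h01
    | exact absurd hij.symm h02
    | exact absurd hij.symm h03
    | exact absurd hij.symm h04
    | exact absurd hij.symm h12
    | exact absurd hij.symm h13
    | exact absurd hij.symm h14
    | exact absurd hij.symm h23
    | exact absurd hij.symm h24
    | exact absurd hij.symm h34

theorem PQ_prod (hNZ : T_NZ) : PK * QK = C (2 * (1 - tK) * cK aK * cK m3 * cK m4) *
    ∏ i : Fin 5, (X - C (eK i)) := by
  obtain ⟨-, ha, hb, hd, h3, h4, -, -⟩ := hNZ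
  have h3' : cK m3 ≠ 0 := by rwa [Ne, map_eq_zero]
  have h4' : cK m4 ≠ 0 := by rwa [Ne, map_eq_zero]
  have e0 : eK 0 = 0 := rfl
  have e1 : eK 1 = tK := rfl
  have e2 : eK 2 = -tK / cK m3 := rfl
  have e3 : eK 3 = -tK / cK m4 := rfl
  have e4 : eK 4 = -1 := rfl
  have q3 : (C (cK m3) * X + C tK : KK[X]) = C (cK m3) * (X - C (eK 2)) := by
    rw [e2, mul_sub, ← C_mul, mul_div_cancel₀ _ h3', C_neg]
    ring
  have q4 : (C (cK m4) * X + C tK : KK[X]) = C (cK m4) * (X - C (eK 3)) := by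
    rw [e3, mul_sub, ← C_mul, mul_div_cancel₀ _ h4', C_neg]
    ring
  rw [PK, QK, q3, q4, Fin.prod_univ_five, e0, e1, e4]
  simp only [C_mul, C_0, C_neg, C_1]
  ring

theorem two_ne : (2 * (1 - tK)) ≠ 0 := by
  have h1 : (1 - tK) ≠ 0 := by
    intro h
    have := tK_ne 1
    rw [map_one] at this
    exact this (sub_eq_zero.mp h).symm
  exact mul_ne_zero two_ne_zero h1

theorem lead_ne (hNZ : T_NZ) : (2 * (1 - tK) * cK aK * cK m3 * cK m4) ≠ 0 := by
  obtain ⟨-, ha, hb, hd, h3, h4, -, -⟩ := hNZ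
  have ha' : cK aK ≠ 0 := by rwa [Ne, map_eq_zero]
  have h3' : cK m3 ≠ 0 := by rwa [Ne, map_eq_zero]
  have h4' : cK m4 ≠ 0 := by rwa [Ne, map_eq_zero]
  exact mul_ne_zero (mul_ne_zero (mul_ne_zero two_ne ha') h3') h4'

theorem PQ_sep (hNZ : T_NZ) (hAB : T_AB) : (PK * QK).Separable := by
  rw [PQ_prod hNZ]
  have h1 : (∏ i : Fin 5, (X - C (eK i)) : KK[X]).Separable :=
    separable_prod_X_sub_C_iff.mpr (eK_inj hNZ hAB)
  exact h1.unit_mul (isUnit_C.mpr (isUnit_iff_ne_zero.mpr (lead_ne hNZ)))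

theorem PQ_splits (hNZ : T_NZ) : (PK * QK).Splits := by
  rw [PQ_prod hNZ]
  exact Splits.C_mul (Splits.prod (fun i _ => Splits.X_sub_C _)) _

theorem PQ_deg (hNZ : T_NZ) : (PK * QK).natDegree = 5 := by
  rw [PQ_prod hNZ, natDegree_C_mul (lead_ne hNZ), natDegree_prod_of_monic _ _
    (fun i _ => monic_X_sub_C _)]
  simp

theorem PK_deg : PK.natDegree = 3 := by
  have h : PK = C (2 * (1 - tK)) * (X * (X - C tK) * (X + C 1)) := by
    rw [PK]; simp only [C_1]; ring
  rw [h, natDegree_C_mul two_ne, (monic_X.mul (monic_X_sub_C tK)).natDegree_mul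
    (monic_X_add_C 1), monic_X.natDegree_mul (monic_X_sub_C tK), natDegree_X,
    natDegree_X_sub_C, natDegree_X_add_C]

theorem QK_deg (hNZ : T_NZ) : QK.natDegree = 2 := by
  have h1 := PQ_deg hNZ
  have hP : PK ≠ 0 := by
    intro h0
    have := PK_deg
    rw [h0, natDegree_zero] at this
    omega
  have hQ : QK ≠ 0 := by
    intro h0
    rw [h0, mul_zero, natDegree_zero] at h1
    omega
  rw [natDegree_mul hP hQ, PK_deg] at h1
  omega

theorem PK_one : PK.eval 1 = (2 * (1 - tK)) ^ 2 := by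
  simp only [PK, eval_mul, eval_C, eval_X, eval_sub, eval_add, eval_one]
  ring

theorem PQ_root (hNZ : T_NZ) (e : KK) : (PK * QK).IsRoot e ↔ ∃ i, e = eK i := by
  rw [IsRoot.def, eval_mul, mul_eq_zero, ← IsRoot.def, ← IsRoot.def, PK_root, QK_root hNZ]
  constructor
  · rintro ((h | h | h) | (h | h))
    exacts [⟨0, h⟩, ⟨1, h⟩, ⟨4, h⟩, ⟨2, h⟩, ⟨3, h⟩]
  · rintro ⟨i, hi⟩
    fin_cases i
    · exact Or.inl (Or.inl hi)
    · exact Or.inl (Or.inr (Or.inl hi))
    · exact Or.inr (Or.inl hi)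
    · exact Or.inr (Or.inr hi)
    · exact Or.inl (Or.inr (Or.inr hi))

/-- From the general equations to the indexed ones. -/
theorem tz_of_torsor (hNZ : T_NZ) {F : Type} [Field F] [Algebra KK F] (u v : F) (X Y : KK → F)
    (X' Y' y z : F) (h : TorsorZero PK QK 1 u v X Y X' Y' y z) :
    TZ eK rK QK.leadingCoeff PK QK u v (fun i => X (eK i)) (fun i => Y (eK i)) X' Y' y z := by
  refine ⟨?_, h.inf, h.con⟩
  intro i
  fin_cases i
  · exact h.rootP (eK 0) ((PK_root _).mpr (Or.inl rfl))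
  · exact h.rootP (eK 1) ((PK_root _).mpr (Or.inr (Or.inl rfl)))
  · exact h.rootQ (eK 2) ((QK_root hNZ _).mpr (Or.inl rfl))
  · exact h.rootQ (eK 3) ((QK_root hNZ _).mpr (Or.inr rfl))
  · exact h.rootP (eK 4) ((PK_root _).mpr (Or.inr (Or.inr rfl)))

/-- From the indexed equations to the general ones. -/
theorem torsor_of_tz (hNZ : T_NZ) (hAB : T_AB) {F : Type} [Field F] [Algebra KK F] (u v : F)
    (X Y : Fin 5 → F) (X' Y' y z : F)
    (h : TZ eK rK QK.leadingCoeff PK QK u v X Y X' Y' y z) :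
    ∃ X1 Y1 : KK → F, (∀ i, X1 (eK i) = X i) ∧ (∀ i, Y1 (eK i) = Y i) ∧
      TorsorZero PK QK 1 u v X1 Y1 X' Y' y z := by
  classical
  have hinj := eK_inj hNZ hAB
  let idx : KK → Fin 5 := Function.invFun eK
  have hidx : ∀ i, idx (eK i) = i := Function.leftInverse_invFun hinj
  refine ⟨fun e => X (idx e), fun e => Y (idx e), fun i => by simp only [hidx],
    fun i => by simp only [hidx], ?_, ?_, h.inf, h.con⟩
  · intro e he
    rcases (PK_root e).mp he with rfl | rfl | rfl
    · simp only [hidx]; exact h.eqs 0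
    · simp only [hidx]; exact h.eqs 1
    · simp only [hidx]; exact h.eqs 4
  · intro e he
    rcases (QK_root hNZ e).mp he with rfl | rfl
    · simp only [hidx]; exact h.eqs 2
    · simp only [hidx]; exact h.eqs 3

end Pool.Agent.H12.UT
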