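import Pool.Agent.H12.UT.Fin1

/-!
MP_8b378c_ag, universal torsors: the final composition (dependencies are hypotheses).
-/

namespace Pool.Agent.H12.UT

open Polynomial

/-- The residues are not squares. -/
theorem res_nonsq {κ K : Type} [Field κ] [Field K] [Algebra K (HS κ)] (c q : K) (r : κ)
    (hr : ¬ IsSquare r) (hq : q ≠ 0) (h : (algebraMap K (HS κ) (c * q ^ 2)).leadingCoeff = r) :
    ¬ IsSquare c := by
  rintro ⟨w, hw⟩
  apply hr
  refine ⟨(algebraMap K (HS κ) (w * q)).leadingCoeff, ?_⟩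
  rw [← HahnSeries.leadingCoeff_mul, ← map_mul, ← h, hw]
  congr 2
  ring

/-- The statement. -/
def Final : Prop :=
  (PK.natDegree = 3 ∧ QK.natDegree = 2 ∧ (PK * QK).Splits ∧ (PK * QK).Separable) ∧
  (∃ y₀ : KK, y₀ ≠ 0 ∧ y₀ ^ 2 = PK.eval 1) ∧
  ((∀ e, PK.IsRoot e → ¬ IsSquare (QK.eval e)) ∧ (∀ e, QK.IsRoot e → ¬ IsSquare (PK.eval e)) ∧
    ¬ IsSquare QK.leadingCoeff) ∧
  (∃ (F : Type) (_ : Field F) (_ : Algebra KK F), IsTorsorField PK QK 1 F) ∧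
  ∀ (F : Type) [Field F] [Algebra KK F], IsTorsorField PK QK 1 F → ¬ StablyRational KK F

theorem gen_set {F : Type} (u v X' Y' y z : F) (X Y : KK → F) (hNZ : T_NZ) :
    ({u, v, X', Y', y, z} ∪ {w | ∃ e : KK, (PK * QK).IsRoot e ∧ (w = X e ∨ w = Y e)} : Set F) =
    Set.range (nine u v (fun i => Y (eK i)) Y' z) ∪
      (Set.range (fun i => X (eK i)) ∪ {X', y}) := by
  ext w
  simp only [Set.mem_union, Set.mem_insert_iff, Set.mem_singleton_iff, Set.mem_setOf_eq,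
    Set.mem_range, PQ_root hNZ]
  constructor
  · rintro ((h | h | h | h | h | h) | ⟨e, ⟨i, rfl⟩, (h | h)⟩)
    · exact Or.inl ⟨0, h.symm⟩
    · exact Or.inl ⟨1, h.symm⟩
    · exact Or.inr (Or.inr (Or.inl h))
    · exact Or.inl ⟨7, h.symm⟩
    · exact Or.inr (Or.inr (Or.inr h))
    · exact Or.inl ⟨8, h.symm⟩
    · exact Or.inr (Or.inl ⟨i, h.symm⟩)
    · refine Or.inl ?_
      fin_cases i
      · exact ⟨2, h.symm⟩
      · exact ⟨3, h.symm⟩
      · exact ⟨4, h.symm⟩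
      · exact ⟨5, h.symm⟩
      · exact ⟨6, h.symm⟩
  · rintro (⟨k, hk⟩ | ⟨i, hi⟩ | h | h)
    · fin_cases k
      · exact Or.inl (Or.inl hk.symm)
      · exact Or.inl (Or.inr (Or.inl hk.symm))
      · exact Or.inr ⟨eK 0, ⟨0, rfl⟩, Or.inr hk.symm⟩
      · exact Or.inr ⟨eK 1, ⟨1, rfl⟩, Or.inr hk.symm⟩
      · exact Or.inr ⟨eK 2, ⟨2, rfl⟩, Or.inr hk.symm⟩
      · exact Or.inr ⟨eK 3, ⟨3, rfl⟩, Or.inr hk.symm⟩
      · exact Or.inr ⟨eK 4, ⟨4, rfl⟩, Or.inr hk.symm⟩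
      · exact Or.inl (Or.inr (Or.inr (Or.inr (Or.inl hk.symm))))
      · exact Or.inl (Or.inr (Or.inr (Or.inr (Or.inr (Or.inr hk.symm)))))
    · exact Or.inr ⟨eK i, ⟨i, rfl⟩, Or.inl hi.symm⟩
    · exact Or.inl (Or.inr (Or.inr (Or.inl h)))
    · exact Or.inl (Or.inr (Or.inr (Or.inr (Or.inr (Or.inl h)))))

theorem fin_main (hV1 : T_V1) (hV2 : T_V2) (hHM : T_HM) (hE1 : T_E1) (hE2 : T_E2) (hCO : T_CO)
    (hPT : T_PT) (hEXT : T_EXT) (hMON : T_MON) (hTRB : T_TRB) (hFR : T_FR) (hEXV : T_EXV)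
    (hHGX : ∃ H : Kap → Prop, HG aK bK dK H ∧ ¬ H (-1))
    (hNSQ : ¬ IsSquare aK ∧ ¬ IsSquare bK ∧ ¬ IsSquare dK ∧ ¬ IsSquare gK ∧ ¬ NV gK 2)
    (hNZ : T_NZ) (hJK : T_JK) (hDAT : T_DAT) (hRD0 : T_RD0) (hRD1 : T_RD1)
    (hAB : T_AB) (hABD : ¬ IsSquare (aK * bK * dK)) : Final := by
  refine ⟨⟨PK_deg, QK_deg hNZ, PQ_splits hNZ, PQ_sep hNZ hAB⟩,
    ⟨2 * (1 - tK), two_ne, PK_one.symm⟩, ?_, ?_, ?_⟩
  · obtain ⟨j, hjc, hjt⟩ := hJK
    let instJ : Algebra KK (HS Kap) := j.toAlgebra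
    have hjc' : ∀ c, algebraMap KK (HS Kap) (cK c) = HahnSeries.C c := hjc
    have hjt' : algebraMap KK (HS Kap) tK = HahnSeries.single 1 1 := hjt
    have hGD := hDAT hNZ hjc' hjt'
    have hr : ∀ i, ¬ IsSquare (rK i) := by
      intro i
      obtain ⟨q, hq, -, hq2⟩ := hGD.cq i
      refine res_nonsq (rK i) q _ ?_ hq hq2
      fin_cases i
      · exact hNSQ.1
      · exact hNSQ.2.1
      · exact hNSQ.2.2.1
      · exact hABD
      · exact hNSQ.2.2.2.1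
    refine ⟨?_, ?_, ?_⟩
    · intro e he
      rcases (PK_root e).mp he with rfl | rfl | rfl
      · exact hr 0
      · exact hr 1
      · exact hr 4
    · intro e he
      rcases (QK_root hNZ e).mp he with rfl | rfl
      · exact hr 2
      · exact hr 3
    · obtain ⟨q, hq, -, hq2⟩ := hGD.cq'
      exact res_nonsq _ q _ hNSQ.2.2.2.1 hq hq2
  · obtain ⟨j, hjc, hjt⟩ := hJK
    let instJ : Algebra KK (HS Kap) := j.toAlgebra
    have hjc' : ∀ c, algebraMap KK (HS Kap) (cK c) = HahnSeries.C c := hjc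
    have hjt' : algebraMap KK (HS Kap) tK = HahnSeries.single 1 1 := hjt
    have hGD := hDAT hNZ hjc' hjt'
    obtain ⟨x0, y0, x0', y0', hR0⟩ := hRD0 hNZ hjc' hjt'
    obtain ⟨γ, hγpos, hγ⟩ := hMON Kap (9 + 0)
    obtain ⟨u, v, X, Y, X', Y', y, z, w, hTZ, -, -, hind⟩ := hPT Kap KK AK eK rK
      QK.leadingCoeff PK QK 1 1 x0 y0 x0' y0' 0 cK hjc' hGD hR0
      ⟨γ, hγpos, hγ KK (fun c => hjc c) hjt⟩
    have hind' : AlgebraicIndependent KK (nine u v Y Y' z) :=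
      hind.comp Sum.inl Sum.inl_injective
    have he : ∀ i, 1 - eK i ≠ 0 := by
      intro i
      by_cases hi : i = 4
      · rw [hi, hGD.e4, sub_neg_eq_add, one_add_one_eq_two]
        exact two_ne_zero
      · intro h0
        have h1 : eK i = 1 := (sub_eq_zero.mp h0).symm
        rcases hGD.e0 i hi with h | h
        · rw [h1, map_one] at h
          exact one_ne_zero h
        · rw [h1, map_one, HahnSeries.order_one] at h
          exact lt_irrefl _ h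
    obtain ⟨F, iF, iA, u1, v1, X1, Y1, X1', Y1', y1, z1, hT1, hg1, htr1⟩ :=
      exists_of_zero eK rK QK.leadingCoeff PK QK he u v X Y X' Y' y z hTZ hind'
    obtain ⟨X2, Y2, hX2, hY2, hT2⟩ := torsor_of_tz hNZ hAB u1 v1 X1 Y1 X1' Y1' y1 z1 hT1
    refine ⟨F, iF, iA, u1, v1, X2, Y2, X1', Y1', y1, z1, hT2, ?_, ?_⟩
    · rw [gen_set u1 v1 X1' Y1' y1 z1 X2 Y2 hNZ]
      have hX3 : (fun i => X2 (eK i)) = X1 := funext hX2
      have hY3 : (fun i => Y2 (eK i)) = Y1 := funext hY2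
      rw [hX3, hY3]
      exact hg1
    · rw [htr1, PQ_deg hNZ]
      norm_num
  · intro F iF iA hF
    obtain ⟨u, v, X, Y, X', Y', y, z, hT, hg, htr⟩ := hF
    rw [gen_set u v X' Y' y z X Y hNZ] at hg
    have htr9 : Algebra.trdeg KK F = 9 := by
      rw [htr, PQ_deg hNZ]
      norm_num
    exact main hV1 hV2 hHM hE1 hE2 hCO hPT hEXT hMON hTRB hFR hEXV hHGX hNSQ hNZ hJK hDAT hRD0
      hRD1 F u v (fun i => X (eK i)) (fun i => Y (eK i)) X' Y' y z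
      (tz_of_torsor hNZ u v X Y X' Y' y z hT) hg htr9

end Pool.Agent.H12.UT
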