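import Pool.Agent.H12.UT.All

/-!
MP_8b378c_ag, universal torsors: the final statement over an abstract field.
-/

namespace Pool.Agent.H12.UT

open Polynomial

/-- The polynomial `P = 2 (1 - t) s (s - t) (s + 1)`. -/
noncomputable def PP {K : Type} [Field K] (t : K) : K[X] :=
  C (2 * (1 - t)) * X * (X - C t) * (X + 1)

/-- The polynomial `Q = a ((2 z ^ 2 + 1) s + t) ((2 a b d - 1) s + t)`, `a = x ^ 2 + 1`, `b = y ^ 2 + 1`,
`d = z ^ 2 + 1`. -/
noncomputable def QQ {K : Type} [Field K] (x y z t : K) : K[X] :=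
  C (x ^ 2 + 1) * (C (2 * z ^ 2 + 1) * X + C t) *
    (C (2 * (x ^ 2 + 1) * (y ^ 2 + 1) * (z ^ 2 + 1) - 1) * X + C t)

/-- The surface `X : y ^ 2 = P(s) + Q(s) z ^ 2` (a conic bundle over the line): `P Q` is separable and
split, of degree `3 + 2`, so that there are exactly six degenerate geometric fibres (over the five roots
and over infinity); their residues `Q(e)`, `P(e)`, leading coefficient of `Q`, are not squares; there is
a point over `s₀`. -/
structure ConicBundle {K : Type} [Field K] (P Q : K[X]) (s₀ : K) : Prop where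
  degP : P.natDegree = 3
  degQ : Q.natDegree = 2
  split : (P * Q).Splits
  sep : (P * Q).Separable
  resP : ∀ e, P.IsRoot e → ¬ IsSquare (Q.eval e)
  resQ : ∀ e, Q.IsRoot e → ¬ IsSquare (P.eval e)
  resI : ¬ IsSquare Q.leadingCoeff
  point : ∃ y₀ : K, y₀ ≠ 0 ∧ y₀ ^ 2 = P.eval s₀

/-- The universal torsor with a point over `s₀` is not stably rational. -/
def NotSR {K : Type} [Field K] (P Q : K[X]) (s₀ : K) : Prop :=
  (∃ (F : Type) (_ : Field F) (_ : Algebra K F), IsTorsorField P Q s₀ F) ∧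
  ∀ (F : Type) [Field F] [Algebra K F], IsTorsorField P Q s₀ F → ¬ StablyRational K F

theorem QQ_eq : QQ (cK (xx 0)) (cK (xx 1)) (cK (xx 2)) tK = QK := by
  simp only [QQ, QK, aK, bK, dK, m3, m4, map_add, map_mul, map_pow, map_one, map_sub, map_ofNat]

theorem cK_eq (c : Kap) : cK c = algebraMap Kap KK c :=
  (IsScalarTower.algebraMap_apply Kap Kap[X] KK c).symm

theorem ind4 : AlgebraicIndependent ℚ ![cK (xx 0), cK (xx 1), cK (xx 2), tK] := by
  have h1 : AlgebraicIndependent ℚ xx := by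
    have h := MvPolynomial.algebraicIndependent_X (Fin 3) ℚ
    exact h.map' (f := IsScalarTower.toAlgHom ℚ (MvPolynomial (Fin 3) ℚ) Kap)
      (IsFractionRing.injective (MvPolynomial (Fin 3) ℚ) Kap)
  have h2 : AlgebraicIndependent Kap (fun _ : Fin 1 => tK) := by
    rw [algebraicIndependent_unique_type_iff]
    intro h
    obtain ⟨p, hp, hp0⟩ := h
    apply hp
    have h3 : aeval tK p = algebraMap Kap[X] KK p := by
      rw [tK, aeval_algebraMap_apply, aeval_X_left_apply]
    rw [h3] at hp0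
    exact (IsFractionRing.injective Kap[X] KK) (by rw [hp0, map_zero])
  have h3 := h1.sumElim_comp h2
  have h4 := h3.comp (Sum.swap ∘ finSumFinEquiv.symm : Fin (3 + 1) → Fin 1 ⊕ Fin 3)
    ((Equiv.sumComm _ _).injective.comp (Equiv.injective _))
  have h5 : (Sum.elim (fun _ : Fin 1 => tK) (algebraMap Kap KK ∘ xx)) ∘
      (Sum.swap ∘ finSumFinEquiv.symm : Fin (3 + 1) → Fin 1 ⊕ Fin 3) =
      ![cK (xx 0), cK (xx 1), cK (xx 2), tK] := by
    funext k
    rw [cK_eq, cK_eq, cK_eq]
    fin_cases k <;> rfl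
  rw [h5] at h4
  exact h4

theorem gen4 : IntermediateField.adjoin ℚ ({cK (xx 0), cK (xx 1), cK (xx 2), tK} : Set KK) = ⊤ := by
  set M := IntermediateField.adjoin ℚ ({cK (xx 0), cK (xx 1), cK (xx 2), tK} : Set KK) with hM
  have hx : ∀ i, cK (xx i) ∈ M := by
    intro i
    apply IntermediateField.subset_adjoin
    fin_cases i
    · exact Or.inl rfl
    · exact Or.inr (Or.inl rfl)
    · exact Or.inr (Or.inr (Or.inl rfl))
  have ht : tK ∈ M := IntermediateField.subset_adjoin _ _ (Or.inr (Or.inr (Or.inr rfl)))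
  have hp : ∀ p : MvPolynomial (Fin 3) ℚ, cK (algebraMap (MvPolynomial (Fin 3) ℚ) Kap p) ∈ M := by
    intro p
    induction p using MvPolynomial.induction_on with
    | C a =>
      have : cK (algebraMap (MvPolynomial (Fin 3) ℚ) Kap (MvPolynomial.C a)) =
          algebraMap ℚ KK a := by
        exact (RingHom.congr_fun (Subsingleton.elim
          ((cK.comp (algebraMap (MvPolynomial (Fin 3) ℚ) Kap)).comp MvPolynomial.C)
          (algebraMap ℚ KK)) a)
      rw [this]
      exact M.algebraMap_mem a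
    | add p q hp hq => rw [map_add, map_add]; exact M.add_mem hp hq
    | mul_X p i hp => rw [map_mul, map_mul]; exact M.mul_mem hp (hx i)
  have hk : ∀ c : Kap, cK c ∈ M := by
    intro c
    obtain ⟨p, q, hq, rfl⟩ := IsFractionRing.div_surjective (A := MvPolynomial (Fin 3) ℚ) c
    rw [map_div₀]
    exact M.div_mem (hp p) (hp q)
  have hq : ∀ p : Kap[X], algebraMap Kap[X] KK p ∈ M := by
    intro p
    induction p using Polynomial.induction_on with
    | C a => exact hk a
    | add p q hp hq => rw [map_add]; exact M.add_mem hp hq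
    | monomial n a h =>
      rw [pow_succ, ← mul_assoc, map_mul]
      exact M.mul_mem h ht
  rw [eq_top_iff]
  intro w _
  obtain ⟨p, q, hq', rfl⟩ := IsFractionRing.div_surjective (A := Kap[X]) w
  exact M.div_mem (hq p) (hq q)

theorem final3 : ∃ (K : Type) (_ : Field K) (_ : Algebra ℚ K) (x y z t : K),
    AlgebraicIndependent ℚ ![x, y, z, t] ∧ IntermediateField.adjoin ℚ {x, y, z, t} = ⊤ ∧
    ConicBundle (PP t) (QQ x y z t) 1 ∧ NotSR (PP t) (QQ x y z t) 1 := by
  refine ⟨KK, inferInstance, inferInstance, cK (xx 0), cK (xx 1), cK (xx 2), tK, ind4, gen4, ?_⟩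
  rw [QQ_eq]
  obtain ⟨⟨h1, h2, h3, h4⟩, h5, ⟨h6, h7, h8⟩, h9, h10⟩ := final
  exact ⟨⟨h1, h2, h3, h4, h6, h7, h8, h5⟩, h9, h10⟩

end Pool.Agent.H12.UT
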