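import Pool.Agent.H12.UT.Fin2

/-!
MP_8b378c_ag, universal torsors: two small facts.
-/

namespace Pool.Agent.H12.UT

open Polynomial

theorem pf_AB : T_AB := by
  have h : aK * bK - 1 = algebraMap (MvPolynomial (Fin 3) ℚ) Kap
      ((MvPolynomial.X 0 ^ 2 + 1) * (MvPolynomial.X 1 ^ 2 + 1) - 1) := by
    simp only [aK, bK, xx, map_sub, map_mul, map_add, map_pow, map_one]
  intro h1
  rw [h1, sub_self] at h
  have h2 : (MvPolynomial.X 0 ^ 2 + 1) * (MvPolynomial.X 1 ^ 2 + 1) - 1 =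
      (0 : MvPolynomial (Fin 3) ℚ) :=
    (IsFractionRing.injective (MvPolynomial (Fin 3) ℚ) Kap)
      (by rw [map_zero]; exact h.symm)
  have h3 := congrArg (MvPolynomial.eval (fun _ => (1 : ℚ))) h2
  simp only [map_sub, map_mul, map_add, map_pow, map_one, MvPolynomial.eval_X, map_zero] at h3
  norm_num at h3

theorem pf_ABD (hSP1 : T_SP1) : ¬ IsSquare (aK * bK * dK) := by
  have h : aK * bK * dK = algebraMap (MvPolynomial (Fin 3) ℚ) Kap
      ((MvPolynomial.X 0 ^ 2 + 1) * (MvPolynomial.X 1 ^ 2 + 1) * (MvPolynomial.X 2 ^ 2 + 1)) := by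
    simp only [aK, bK, dK, xx, map_mul, map_add, map_pow, map_one]
  rw [h]
  apply hSP1
  simp only [map_mul, map_add, map_pow, map_one, MvPolynomial.eval_X]
  norm_num

end Pool.Agent.H12.UT
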