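import Pool.Agent.H12.UT.Exist

/-!
MP_8b378c_ag, universal torsors: the statement for conic bundles.
-/

namespace Pool.Agent.H12.UT

open Polynomial

/-- Let `y ^ 2 = P(s) + Q(s) z ^ 2` be a conic bundle surface `X` over `K`, `P` of odd degree, `Q` of even
degree, `P Q` separable with all its roots in `K`, and let `s₀` be a point of the line over which `X` has a
`K`-point. The degenerate fibres lie over the roots `e` of `P` (residue `Q(e)`), the roots `e` of `Q`
(residue `P(e)`) and over infinity (residue: the leading coefficient of `Q`).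
`TorsorZero`: zeros in `F` of the equations of Colliot-Thelene and Sansuc
`u - e v = (s₀ - e) (X_e ^ 2 - c_e Y_e ^ 2)`, `v = X' ^ 2 - c Y' ^ 2`, together with a point `(y, z)` of the
conic over `s = u / v`. -/
structure TorsorZero {K F : Type} [Field K] [Field F] [Algebra K F] (P Q : K[X]) (s₀ : K)
    (u v : F) (X Y : K → F) (X' Y' y z : F) : Prop where
  rootP : ∀ e : K, P.IsRoot e → u - algebraMap K F e * v =
    algebraMap K F (s₀ - e) * (X e ^ 2 - algebraMap K F (Q.eval e) * Y e ^ 2)
  rootQ : ∀ e : K, Q.IsRoot e → u - algebraMap K F e * v =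
    algebraMap K F (s₀ - e) * (X e ^ 2 - algebraMap K F (P.eval e) * Y e ^ 2)
  inf : v = X' ^ 2 - algebraMap K F Q.leadingCoeff * Y' ^ 2
  con : y ^ 2 = aeval (u / v) P + aeval (u / v) Q * z ^ 2

/-- `F` is generated over `K` by a generic zero: `F` is the function field of the variety of all zeros. -/
def IsTorsorField {K : Type} [Field K] (P Q : K[X]) (s₀ : K) (F : Type) [Field F] [Algebra K F] :
    Prop :=
  ∃ (u v : F) (X Y : K → F) (X' Y' y z : F), TorsorZero P Q s₀ u v X Y X' Y' y z ∧
    IntermediateField.adjoin K ({u, v, X', Y', y, z} ∪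
      {w | ∃ e : K, (P * Q).IsRoot e ∧ (w = X e ∨ w = Y e)}) = ⊤ ∧
    Algebra.trdeg K F = (P * Q).natDegree + 4

theorem tK_ne (c : Kap) : tK ≠ cK c := by
  intro h
  have h1 : (X : Kap[X]) = C c := IsFractionRing.injective Kap[X] KK h
  have h2 := congrArg (fun p => Polynomial.coeff p 1) h1
  simp [coeff_X] at h2

theorem tK_ne_zero : tK ≠ 0 := by
  have := tK_ne 0
  rwa [map_zero] at this

theorem PK_root (e : KK) : PK.IsRoot e ↔ e = eK 0 ∨ e = eK 1 ∨ e = eK 4 := by
  have h1 : (1 - tK) ≠ 0 := by
    intro h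
    have := tK_ne 1
    rw [map_one] at this
    exact this (sub_eq_zero.mp h).symm
  have h2 : (2 * (1 - tK)) ≠ 0 := mul_ne_zero two_ne_zero h1
  have h3 : PK.eval e = 2 * (1 - tK) * e * (e - tK) * (e + 1) := by
    simp [PK]
  rw [IsRoot.def, h3]
  constructor
  · intro h
    rcases mul_eq_zero.mp h with h | h
    · rcases mul_eq_zero.mp h with h | h
      · rcases mul_eq_zero.mp h with h | h
        · exact absurd h h2
        · left; exact h
      · right; left; exact sub_eq_zero.mp h
    · right; right
      exact eq_neg_of_add_eq_zero_left h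
  · rintro (h | h | h)
    · rw [h]; simp [eK]
    · rw [h]; simp [eK]
    · rw [h]; simp [eK]

theorem QK_root (hNZ : T_NZ) (e : KK) : QK.IsRoot e ↔ e = eK 2 ∨ e = eK 3 := by
  obtain ⟨-, ha, -, -, h3, h4, -, -⟩ := hNZ
  have ha' : cK aK ≠ 0 := by rwa [Ne, map_eq_zero]
  have h3' : cK m3 ≠ 0 := by rwa [Ne, map_eq_zero]
  have h4' : cK m4 ≠ 0 := by rwa [Ne, map_eq_zero]
  have h : QK.eval e = cK aK * (cK m3 * e + tK) * (cK m4 * e + tK) := by
    simp [QK]
  rw [IsRoot.def, h]
  constructor
  · intro h
    rcases mul_eq_zero.mp h with h | h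
    · rcases mul_eq_zero.mp h with h | h
      · exact absurd h ha'
      · left
        change e = -tK / cK m3
        rw [eq_div_iff h3']
        linear_combination h
    · right
      change e = -tK / cK m4
      rw [eq_div_iff h4']
      linear_combination h
  · rintro (h | h)
    · rw [h]
      change cK aK * (cK m3 * (-tK / cK m3) + tK) * (cK m4 * (-tK / cK m3) + tK) = 0
      rw [mul_div_cancel₀ _ h3']
      ring
    · rw [h]
      change cK aK * (cK m3 * (-tK / cK m4) + tK) * (cK m4 * (-tK / cK m4) + tK) = 0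
      rw [mul_div_cancel₀ _ h4']
      ring

end Pool.Agent.H12.UT
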