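import Pool.Agent.H12.UT.Defs

/-!
MP_8b378c_ag, universal torsors: targets of the board utn_modules.
-/

namespace Pool.Agent.H12.UT

open Polynomial

/-! ### Part A : polynomials over `κ` -/

/-- A1: primes of odd multiplicity in a value of a norm form. -/
def T_A1 : Prop := ∀ (κ : Type) [Field κ] (a : κ) (f p : κ[X]), f ≠ 0 → NVX a f →
  Irreducible p → Odd (multiplicity p f) → IsSquare (AdjoinRoot.of p a)

/-- A2: lowest times highest coefficient. -/
def T_A2 : Prop := ∀ (κ : Type) [Field κ] (a b d : κ) (H : κ → Prop), HG a b d H →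
  ¬ IsSquare a → ∀ f : κ[X], f ≠ 0 →
  (∀ p : κ[X], Irreducible p → Odd (multiplicity p f) →
    IsSquare (AdjoinRoot.of p a) ∧ IsSquare (AdjoinRoot.of p b) ∧ IsSquare (AdjoinRoot.of p d)) →
  H (f.trailingCoeff * f.leadingCoeff)

/-- E1: a non-square of `κ` is not a square of `κ(ν)`. -/
def T_E1 : Prop := ∀ (κ E : Type) [Field κ] [Field E] [Algebra κ[X] E] [IsFractionRing κ[X] E]
  (c : κ), ¬ IsSquare c → ¬ IsSquare (algebraMap κ[X] E (C c))

/-- E2: if `2` is not a value of the norm form over `κ`, neither over `κ(ν)`. -/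
def T_E2 : Prop := ∀ (κ E : Type) [Field κ] [Field E] [Algebra κ[X] E] [IsFractionRing κ[X] E]
  (g : κ), ¬ IsSquare g → ¬ NV g 2 → ¬ NV (algebraMap κ[X] E (C g)) 2

/-- E3: common denominators. -/
def T_E3 : Prop := ∀ (κ E : Type) [Field κ] [Field E] [Algebra κ[X] E] [IsFractionRing κ[X] E]
  (a : κ) (f : κ[X]), NV (algebraMap κ[X] E (C a)) (algebraMap κ[X] E f) → NVX a f

/-! ### Part B : Hahn series -/

/-- B1: no cancellation. -/
def T_B1 : Prop := ∀ (E : Type) [Field E] (c X Y : HS E), ¬ IsSquare c.leadingCoeff →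
  X ^ 2 - c * Y ^ 2 ≠ 0 → NV c.leadingCoeff (X ^ 2 - c * Y ^ 2).leadingCoeff

/-- V1: the leading coefficient of `u` is a norm. -/
def T_V1 : Prop := ∀ (E : Type) [Field E] (a r : E) (e c u v X Y : HS E), ¬ IsSquare a → r ≠ 0 →
  c.leadingCoeff = a * r ^ 2 → (e = 0 ∨ 0 < e.order) → u ≠ 0 → v ≠ 0 → u.order ≤ v.order →
  u - e * v = (1 - e) * (X ^ 2 - c * Y ^ 2) → NV a u.leadingCoeff

/-- V2: `ord u ≤ ord v`. -/
def T_V2 : Prop := ∀ (E : Type) [Field E] (g r r' : E) (c c' u v X Y X' Y' : HS E),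
  ¬ IsSquare g → ¬ NV g 2 → r ≠ 0 → r' ≠ 0 → c.leadingCoeff = g * r ^ 2 →
  c'.leadingCoeff = g * r' ^ 2 → u ≠ 0 → v ≠ 0 →
  u + v = 2 * (X ^ 2 - c * Y ^ 2) → v = X' ^ 2 - c' * Y' ^ 2 → u.order ≤ v.order

/-- HM: order and leading coefficient under the coefficientwise map. -/
def T_HM : Prop := ∀ (κ E : Type) [Field κ] [Field E] (i : κ →+* E) (x : HS κ),
  (hmap i x).order = x.order ∧ (hmap i x).leadingCoeff = i x.leadingCoeff ∧
  (x ≠ 0 → hmap i x ≠ 0)

/-- PS: the leading coefficient of `C(ν T^s)` is the edge polynomial. -/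
def T_PS : Prop := ∀ (κ E : Type) [Field κ] [Field E] [Algebra κ[X] E] [IsFractionRing κ[X] E]
  (A : (HS κ)[X]) (s m : ℝ), (∀ j ∈ A.support, m ≤ (A.coeff j).order + s * j) →
  (∃ j ∈ A.support, (A.coeff j).order + s * j = m) →
  ps ((algebraMap κ[X] E).comp C) (algebraMap κ[X] E X) s A ≠ 0 ∧
  (ps ((algebraMap κ[X] E).comp C) (algebraMap κ[X] E X) s A).leadingCoeff =
    algebraMap κ[X] E (∑ j ∈ A.support.filter (fun j => (A.coeff j).order + s * j = m),
      monomial j (A.coeff j).leadingCoeff)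

/-- NP: the walk on the Newton polygon. -/
def T_NP : Prop := ∀ (S : Finset ℕ) (hS : S.Nonempty) (o : ℕ → ℝ) (R : ℕ → ℕ → Prop),
  (∀ i ∈ S, R i i) → (∀ i ∈ S, ∀ j ∈ S, ∀ k ∈ S, R i j → R j k → R i k) →
  (∀ s : ℝ, ∀ i ∈ S, ∀ j ∈ S, o i + s * i = o j + s * j →
    (∀ k ∈ S, o i + s * i ≤ o k + s * k) →
    (∀ k ∈ S, o k + s * k = o i + s * i → i ≤ k ∧ k ≤ j) → R i j) →
  R (S.min' hS) (S.max' hS)

/-- SQ: square roots of Hahn series. -/
def T_SQ : Prop := ∀ (κ : Type) [Field κ] [CharZero κ] (f : HS κ) (r : κ), f ≠ 0 →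
  f.leadingCoeff = r ^ 2 → IsSquare f

/-! ### Part C : the curve -/

/-- CV1: homogenisation along the curve `(z0 + λ z1)/(1 + λ)`. -/
def T_CV1 : Prop := ∀ (K k Λ : Type) [Field K] [Field k] [Field Λ] [Algebra K k]
  [Algebra k[X] Λ] [IsFractionRing k[X] Λ] (N : ℕ) (z0 z1 : Fin N → k)
  (P : MvPolynomial (Fin N) K) (D : ℕ), P.totalDegree ≤ D →
  ∃ A : k[X], A.natDegree ≤ D ∧ A.coeff 0 = MvPolynomial.aeval z0 P ∧
    A.coeff D = MvPolynomial.aeval z1 P ∧
    algebraMap k[X] Λ A = (algebraMap k[X] Λ (1 + X)) ^ D *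
      MvPolynomial.eval₂ ((algebraMap k[X] Λ).comp (C.comp (algebraMap K k)))
        (fun j => algebraMap k[X] Λ (C (z0 j) + X * C (z1 j)) / algebraMap k[X] Λ (1 + X)) P

/-- CV: the homomorphism of the curve. -/
def T_CV : Prop := ∀ (K k Ω Λ : Type) [Field K] [Field k] [Field Ω] [Field Λ] [Algebra K k]
  [Algebra K Ω] [Algebra k[X] Λ] [IsFractionRing k[X] Λ] (N : ℕ) (z : Fin N → Ω),
  AlgebraicIndependent K z → IntermediateField.adjoin K (Set.range z) = ⊤ →
  ∀ i0 i1 : Ω →ₐ[K] k, ∃ Φ : Ω →+* Λ,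
    (∀ c : K, Φ (algebraMap K Ω c) = algebraMap k[X] Λ (C (algebraMap K k c))) ∧
    ∀ h : Ω, ∃ (A B : k[X]) (D : ℕ) (α β : Ω), β ≠ 0 ∧ α = h * β ∧
      A.natDegree ≤ D ∧ B.natDegree ≤ D ∧ A.coeff 0 = i0 α ∧ A.coeff D = i1 α ∧
      B.coeff 0 = i0 β ∧ B.coeff D = i1 β ∧
      algebraMap k[X] Λ A = Φ h * algebraMap k[X] Λ B

/-- CO (core): the class of the leading coefficient is constant. -/
def T_CO : Prop := ∀ (κ E K Ω : Type) [Field κ] [Field E] [Field K] [Field Ω]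
  [Algebra κ[X] E] [IsFractionRing κ[X] E] [Algebra K (HS κ)] [Algebra K Ω]
  (a b d : κ) (H : κ → Prop), HG a b d H → ¬ IsSquare a → ¬ IsSquare b → ¬ IsSquare d →
  ∀ (N : ℕ) (z : Fin N → Ω), AlgebraicIndependent K z →
  IntermediateField.adjoin K (Set.range z) = ⊤ →
  ∀ (i0 i1 : Ω →ₐ[K] HS κ) (u : Ω), u ≠ 0 →
  (∀ χ : Ω →+* HS E,
    (∀ c : K, χ (algebraMap K Ω c) = hmap ((algebraMap κ[X] E).comp C) (algebraMap K (HS κ) c)) →
    NV (algebraMap κ[X] E (C a)) (χ u).leadingCoeff ∧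
    NV (algebraMap κ[X] E (C b)) (χ u).leadingCoeff ∧
    NV (algebraMap κ[X] E (C d)) (χ u).leadingCoeff) →
  H ((i0 u).leadingCoeff * (i1 u).leadingCoeff)

/-! ### Part D : points -/

/-- MON: independent monomials. -/
def T_MON : Prop := ∀ (κ : Type) [Field κ] (n : ℕ), ∃ γ : Fin n → ℝ, (∀ j, 0 < γ j) ∧
  ∀ (K : Type) [Field K] [Algebra κ[X] K] [IsFractionRing κ[X] K] [Algebra K (HS κ)],
  (∀ c : κ, algebraMap K (HS κ) (algebraMap κ[X] K (C c)) = HahnSeries.C c) →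
  algebraMap K (HS κ) (algebraMap κ[X] K X) = HahnSeries.single 1 1 →
  AlgebraicIndependent K (fun j => (HahnSeries.single (γ j) 1 : HS κ))

/-- AFF: affine change of algebraically independent elements. -/
def T_AFF : Prop := ∀ (K L : Type) [Field K] [Field L] [Algebra K L] (n : ℕ) (x : Fin n → L)
  (p q : Fin n → K), (∀ j, q j ≠ 0) → AlgebraicIndependent K x →
  AlgebraicIndependent K (fun j => algebraMap K L (p j) + algebraMap K L (q j) * x j)

/-- EXT: extension of an embedding to square roots. -/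
def T_EXT : Prop := ∀ (K Ω k : Type) [Field K] [Field Ω] [Field k] [Algebra K Ω] [Algebra K k]
  (ι : Type) (x : ι → Ω) (ξ : ι → k) (S : Set Ω), AlgebraicIndependent K x →
  AlgebraicIndependent K ξ → IntermediateField.adjoin K (Set.range x ∪ S) = ⊤ →
  (∀ (M : IntermediateField K Ω) (hx : ∀ j, x j ∈ M) (θ : M →ₐ[K] k),
    M = IntermediateField.adjoin K (Set.range x) → (∀ j, θ ⟨x j, hx j⟩ = ξ j) →
    ∀ w ∈ S, ∃ r : M, (r : Ω) = w ^ 2 ∧ IsSquare (θ r)) →
  ∃ i : Ω →ₐ[K] k, ∀ j, i (x j) = ξ j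

/-- TRB: a generating set (up to algebraic elements) of the right cardinality is algebraically
independent. -/
def T_TRB : Prop := ∀ (K F : Type) [Field K] [Field F] [Algebra K F] (n : ℕ) (x : Fin n → F)
  (S : Set F), IntermediateField.adjoin K (Set.range x ∪ S) = ⊤ →
  (∀ w ∈ S, w ^ 2 ∈ IntermediateField.adjoin K (Set.range x)) → Algebra.trdeg K F = n →
  AlgebraicIndependent K x

/-- FR: a field isomorphic to a rational function field. -/
def T_FR : Prop := ∀ (K Ω : Type) [Field K] [Field Ω] [Algebra K Ω] (N : ℕ),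
  Nonempty (Ω ≃ₐ[K] FractionRing (MvPolynomial (Fin N) K)) →
  ∃ z : Fin N → Ω, AlgebraicIndependent K z ∧ IntermediateField.adjoin K (Set.range z) = ⊤

/-- EXV: adding variables. -/
def T_EXV : Prop := ∀ (K F : Type) [Field K] [Field F] [Algebra K F] (n m : ℕ) (x : Fin n → F)
  (S : Set F), AlgebraicIndependent K x → IntermediateField.adjoin K (Set.range x ∪ S) = ⊤ →
  ∃ w : Fin m → FractionRing (MvPolynomial (Fin m) F),
    AlgebraicIndependent K (Sum.elim
      (fun j => algebraMap F (FractionRing (MvPolynomial (Fin m) F)) (x j)) w) ∧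
    IntermediateField.adjoin K (Set.range (Sum.elim
      (fun j => algebraMap F (FractionRing (MvPolynomial (Fin m) F)) (x j)) w) ∪
      (algebraMap F (FractionRing (MvPolynomial (Fin m) F))) '' S) = ⊤

/-! ### Part N : the norm group -/

/-- The norm of the group generated by three automorphisms. -/
def N3 {S : Type*} [CommRing S] (σ : Fin 3 → S ≃+* S) (f : S) : S :=
  f * σ 0 f * σ 1 f * σ 2 f * σ 0 (σ 1 f) * σ 0 (σ 2 f) * σ 1 (σ 2 f) * σ 0 (σ 1 (σ 2 f))

/-- UFD: norms with even divisor are squares. -/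
def T_UFD : Prop := ∀ (S : Type) [CommRing S] [IsDomain S] [UniqueFactorizationMonoid S]
  (σ : Fin 3 → S ≃+* S), (∀ i f, σ i (σ i f) = f) → (∀ i j f, σ i (σ j f) = σ j (σ i f)) →
  (∀ w : S, IsUnit w → IsSquare (N3 σ w)) →
  (∀ w : S, IsUnit w → ∀ i j, i ≠ j → IsSquare (w * σ i w * σ j w * σ i (σ j w))) →
  ∀ f : S, f ≠ 0 → ∀ w s : S, IsUnit w → N3 σ f = w * s ^ 2 → IsSquare (N3 σ f)

end Pool.Agent.H12.UT
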