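import Pool.Agent.H12.UT.Targets

/-!
MP_8b378c_ag, universal torsors: targets of the board utn_modules, second part (the explicit data).
-/

namespace Pool.Agent.H12.UT

open Polynomial

/-! ### The field `ℚ(x, y, z)` and its extension `ℚ(p, q, r)` -/

/-- `ℚ(x, y, z)`. -/
abbrev Kap : Type := FractionRing (MvPolynomial (Fin 3) ℚ)

/-- The three variables `x, y, z`. -/
noncomputable def xx (i : Fin 3) : Kap := algebraMap (MvPolynomial (Fin 3) ℚ) Kap (MvPolynomial.X i)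

/-- `a = x^2 + 1`. -/
noncomputable def aK : Kap := xx 0 ^ 2 + 1
/-- `b = y^2 + 1`. -/
noncomputable def bK : Kap := xx 1 ^ 2 + 1
/-- `d = z^2 + 1`. -/
noncomputable def dK : Kap := xx 2 ^ 2 + 1
/-- `2 z^2 + 1`. -/
noncomputable def m3 : Kap := 2 * xx 2 ^ 2 + 1
/-- `2 a b d - 1`. -/
noncomputable def m4 : Kap := 2 * aK * bK * dK - 1
/-- `g = a (2 z^2 + 1) (2 a b d - 1)`. -/
noncomputable def gK : Kap := aK * m3 * m4

/-- Laurent polynomials `ℚ[p, 1/p, q, 1/q, r, 1/r]`. -/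
abbrev S3 : Type := Localization.Away
  (MvPolynomial.X 0 * MvPolynomial.X 1 * MvPolynomial.X 2 : MvPolynomial (Fin 3) ℚ)

instance instIsDomainS3 : IsDomain S3 := IsLocalization.isDomain_localization
  (powers_le_nonZeroDivisors_of_noZeroDivisors
    (mul_ne_zero (mul_ne_zero (MvPolynomial.X_ne_zero _) (MvPolynomial.X_ne_zero _))
      (MvPolynomial.X_ne_zero _)))

/-- The variables of the ring of Laurent polynomials. -/
noncomputable def xS (i : Fin 3) : S3 := algebraMap (MvPolynomial (Fin 3) ℚ) S3 (MvPolynomial.X i)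

/-- SIG: the three involutions `p ↦ -1/p`. -/
def T_SIG : Prop := ∃ σ : Fin 3 → S3 ≃+* S3, (∀ i, σ i (xS i) * xS i = -1) ∧
  (∀ i j, i ≠ j → σ i (xS j) = xS j) ∧ (∀ i f, σ i (σ i f) = f) ∧
  (∀ i j f, σ i (σ j f) = σ j (σ i f))

/-- UNI: the units of the ring of Laurent polynomials. -/
def T_UNI : Prop := ∀ w : S3, IsUnit w → ∃ (c : ℚ) (m k : Fin 3 → ℕ), c ≠ 0 ∧
  w * ∏ i, xS i ^ m i = algebraMap ℚ S3 c * ∏ i, xS i ^ k i

/-- USQ: norms of units are squares. -/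
def T_USQ : Prop := T_UNI → ∀ σ : Fin 3 → S3 ≃+* S3, (∀ i, σ i (xS i) * xS i = -1) →
  (∀ i j, i ≠ j → σ i (xS j) = xS j) →
  (∀ w : S3, IsUnit w → IsSquare (N3 σ w)) ∧
  (∀ w : S3, IsUnit w → ∀ i j, i ≠ j → IsSquare (w * σ i w * σ j w * σ i (σ j w)))

/-- PHI: the embedding of `ℚ(x, y, z)` into `ℚ(p, q, r)`. -/
def T_PHI : Prop := ∃ φ : Kap →+* FractionRing S3, ∀ i, φ (xx i) =
  (algebraMap S3 (FractionRing S3) (xS i) - (algebraMap S3 (FractionRing S3) (xS i))⁻¹) / 2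

/-- The data of the field `L = ℚ(p, q, r)` over `ℚ(x, y, z)`. -/
structure LD (L : Type) [Field L] [Algebra Kap L] (σ : Fin 3 → L ≃ₐ[Kap] L) (p : Fin 3 → L) :
    Prop where
  ne : ∀ i, p i ≠ 0
  xp : ∀ i, algebraMap Kap L (xx i) = (p i - (p i)⁻¹) / 2
  sp : ∀ i, σ i (p i) = -(p i)⁻¹
  sq : ∀ i j, i ≠ j → σ i (p j) = p j
  gen : IntermediateField.adjoin Kap (Set.range p) = ⊤
  neg : ∀ f s : L, f ≠ 0 → s ≠ 0 → N3 (fun i => (σ i).toRingEquiv) f ≠ -s ^ 2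

/-- LD: the field `L` exists. -/
def T_LD : Prop := T_UFD → T_SIG → T_UNI → T_USQ → T_PHI →
  ∃ (L : Type) (_ : Field L) (_ : Algebra Kap L) (σ : Fin 3 → L ≃ₐ[Kap] L) (p : Fin 3 → L),
    LD L σ p

/-- GAL: the norm of `L` over `ℚ(x, y, z)`. -/
def T_GAL : Prop := ∀ (L : Type) [Field L] [Algebra Kap L] (σ : Fin 3 → L ≃ₐ[Kap] L)
  (p : Fin 3 → L), LD L σ p → FiniteDimensional Kap L ∧
  ∀ f : L, algebraMap Kap L (Algebra.norm Kap f) = N3 (fun i => (σ i).toRingEquiv) f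

/-- HGX: the group `H`. -/
def T_HGX : Prop := T_GAL → (∃ (L : Type) (_ : Field L) (_ : Algebra Kap L)
    (σ : Fin 3 → L ≃ₐ[Kap] L) (p : Fin 3 → L), LD L σ p) →
  ∃ H : Kap → Prop, HG aK bK dK H ∧ ¬ H (-1)

/-- SP1: specialisation at `(1, 1, 1)`, squares. -/
def T_SP1 : Prop := ∀ c : MvPolynomial (Fin 3) ℚ, ¬ IsSquare (MvPolynomial.eval (fun _ => 1) c) →
  ¬ IsSquare (algebraMap (MvPolynomial (Fin 3) ℚ) Kap c)

/-- SP2: specialisation at `(1, 1, 1)`, norms. -/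
def T_SP2 : Prop := ∀ c : MvPolynomial (Fin 3) ℚ,
  (∀ x y z : ℚ, x ^ 2 - MvPolynomial.eval (fun _ => 1) c * y ^ 2 = 2 * z ^ 2 →
    x = 0 ∧ y = 0 ∧ z = 0) →
  ¬ NV (algebraMap (MvPolynomial (Fin 3) ℚ) Kap c) 2

/-- NSQ: the four elements are not squares and `2` is not a norm. -/
def T_NSQ : Prop := T_SP1 → T_SP2 → ¬ IsSquare aK ∧ ¬ IsSquare bK ∧ ¬ IsSquare dK ∧
  ¬ IsSquare gK ∧ ¬ NV gK 2

/-- NZ: a polynomial which does not vanish at some point is not zero in `ℚ(x, y, z)`; the elements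
which have to be different from zero. -/
def T_NZ : Prop := (∀ i, xx i ≠ 0) ∧ aK ≠ 0 ∧ bK ≠ 0 ∧ dK ≠ 0 ∧ m3 ≠ 0 ∧ m4 ≠ 0 ∧
  xx 2 * (xx 0 * xx 1 - 1) - (xx 0 + xx 1) ≠ 0 ∧ (xx 0 * xx 1 - 1) + xx 2 * (xx 0 + xx 1) ≠ 0

/-! ### The torsor -/

/-- Zeros in `F` of the equations of the torsor (five finite degenerate fibres `e i` with residues
`c i`, the fibre at infinity with residue `c'`, the conic `y^2 = P(u/v) + Q(u/v) z^2`). -/
structure TZ {K F : Type} [Field K] [Field F] [Algebra K F] (e c : Fin 5 → K) (c' : K)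
    (P Q : K[X]) (u v : F) (X Y : Fin 5 → F) (X' Y' y z : F) : Prop where
  eqs : ∀ i, u - algebraMap K F (e i) * v =
    algebraMap K F (1 - e i) * (X i ^ 2 - algebraMap K F (c i) * Y i ^ 2)
  inf : v = X' ^ 2 - algebraMap K F c' * Y' ^ 2
  con : y ^ 2 = aeval (u / v) P + aeval (u / v) Q * z ^ 2

/-- The valuation data: `A = (a, b, d, abd, g)`. -/
structure GD {κ K : Type} [Field κ] [Field K] [Algebra K (HS κ)] (A : Fin 5 → κ)
    (e c : Fin 5 → K) (c' : K) : Prop where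
  e0 : ∀ i : Fin 5, i ≠ 4 → algebraMap K (HS κ) (e i) = 0 ∨
    0 < (algebraMap K (HS κ) (e i)).order
  e4 : e 4 = -1
  cq : ∀ i : Fin 5, ∃ q : K, q ≠ 0 ∧ (algebraMap K (HS κ) (c i * q ^ 2)).order = 0 ∧
    (algebraMap K (HS κ) (c i * q ^ 2)).leadingCoeff = A i
  cq' : ∃ q : K, q ≠ 0 ∧ (algebraMap K (HS κ) (c' * q ^ 2)).order = 0 ∧
    (algebraMap K (HS κ) (c' * q ^ 2)).leadingCoeff = A 4

/-- The residue data of a point with `lead u = U`, `lead v = V`. -/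
structure RD {κ K : Type} [Field κ] [Field K] [Algebra K (HS κ)] (A : Fin 5 → κ)
    (P Q : K[X]) (U V : κ) (x y : Fin 5 → κ) (x' y' : κ) : Prop where
  U0 : U ≠ 0
  V0 : V ≠ 0
  x0 : ∀ i, x i ≠ 0
  x0' : x' ≠ 0
  eqs : ∀ i : Fin 5, i ≠ 4 → U + A i * y i ^ 2 = x i ^ 2
  eq4 : (U + V) / 2 + A 4 * y 4 ^ 2 = x 4 ^ 2
  inf : V + A 4 * y' ^ 2 = x' ^ 2
  con : ∀ s : HS κ, s.order = 0 → s.leadingCoeff = U / V →
    (aeval s P).order = 0 ∧ (∃ r : κ, r ≠ 0 ∧ (aeval s P).leadingCoeff = r ^ 2) ∧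
    0 ≤ (aeval s Q).order

/-- PT: the points near a residue point. -/
def T_PT : Prop := ∀ (κ K : Type) [Field κ] [CharZero κ] [Field K] [Algebra K (HS κ)]
  (A : Fin 5 → κ) (e c : Fin 5 → K) (c' : K) (P Q : K[X]) (U V : κ) (x y : Fin 5 → κ)
  (x' y' : κ) (m : ℕ) (ι : κ →+* K), (∀ r, algebraMap K (HS κ) (ι r) = HahnSeries.C r) →
  GD A e c c' → RD A P Q U V x y x' y' →
  (∃ γ : Fin (9 + m) → ℝ, (∀ j, 0 < γ j) ∧
    AlgebraicIndependent K (fun j => (HahnSeries.single (γ j) 1 : HS κ))) →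
  ∃ (u v : HS κ) (X Y : Fin 5 → HS κ) (X' Y' y z : HS κ) (w : Fin m → HS κ),
    TZ e c c' P Q u v X Y X' Y' y z ∧ u.leadingCoeff = U ∧ v ≠ 0 ∧
    AlgebraicIndependent K (Sum.elim ![u, v, Y 0, Y 1, Y 2, Y 3, Y 4, Y', z] w)

/-- The field `ℚ(x, y, z)(t)`. -/
abbrev KK : Type := FractionRing Kap[X]

/-- constants -/
noncomputable def cK : Kap →+* KK := (algebraMap Kap[X] KK).comp C

/-- `t` -/
noncomputable def tK : KK := algebraMap Kap[X] KK X

/-- The polynomial `P(s) = 2 (1 - t) s (s - t) (s + 1)`. -/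
noncomputable def PK : KK[X] := C (2 * (1 - tK)) * X * (X - C tK) * (X + 1)

/-- The polynomial `Q(s) = a ((2 z^2 + 1) s + t) ((2 a b d - 1) s + t)`. -/
noncomputable def QK : KK[X] := C (cK aK) * (C (cK m3) * X + C tK) * (C (cK m4) * X + C tK)

/-- The five finite degenerate fibres. -/
noncomputable def eK : Fin 5 → KK := ![0, tK, -tK / cK m3, -tK / cK m4, -1]

/-- The residues at the five finite degenerate fibres. -/
noncomputable def rK : Fin 5 → KK :=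
  ![QK.eval 0, QK.eval tK, PK.eval (-tK / cK m3), PK.eval (-tK / cK m4), QK.eval (-1)]

/-- `(a, b, d, abd, g)` -/
noncomputable def AK : Fin 5 → Kap := ![aK, bK, dK, aK * bK * dK, gK]

/-- JK: the embedding of `ℚ(x, y, z)(t)` into the Hahn series. -/
def T_JK : Prop := ∃ j : KK →+* HS Kap, (∀ c, j (cK c) = HahnSeries.C c) ∧
  j tK = HahnSeries.single 1 1

/-- DAT: the valuation data of the example. -/
def T_DAT : Prop := T_NZ → ∀ [Algebra KK (HS Kap)],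
  (∀ c, algebraMap KK (HS Kap) (cK c) = HahnSeries.C c) →
  algebraMap KK (HS Kap) tK = HahnSeries.single 1 1 →
  GD AK eK rK QK.leadingCoeff

/-- RD0: the first residue point. -/
def T_RD0 : Prop := T_NZ → ∀ [Algebra KK (HS Kap)],
  (∀ c, algebraMap KK (HS Kap) (cK c) = HahnSeries.C c) →
  algebraMap KK (HS Kap) tK = HahnSeries.single 1 1 →
  ∃ (x y : Fin 5 → Kap) (x' y' : Kap), RD AK PK QK 1 1 x y x' y'

/-- RD1: the second residue point. -/
def T_RD1 : Prop := T_NZ → ∀ [Algebra KK (HS Kap)],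
  (∀ c, algebraMap KK (HS Kap) (cK c) = HahnSeries.C c) →
  algebraMap KK (HS Kap) tK = HahnSeries.single 1 1 →
  ∃ (x y : Fin 5 → Kap) (x' y' : Kap), RD AK PK QK (-1) 9 x y x' y'

end Pool.Agent.H12.UT
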